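import Pool.Agent.W_7d29a1_L78.LineA

/-!
Proofs row 620, (0) and the box luck of (1), with one start far in the past (sharper than `hitV`). (helper78)
-/

namespace Pool.Agent.W_7d29a1_L78

open MeasureTheory ProbabilityTheory Filter Topology Pool.Agent.W_7d29a1_F Pool.Agent.W_7d29a1_h60
open Pool.Agent.W_7d29a1_L

variable {μ : Measure ℝ} {s : ℝ} [IsProbabilityMeasure μ]

/-- LATEST START, from one point `(-T, b0)` in the past. -/
theorem latest_start_pt (hEM : Pool.Agent.W_7d29a1_h47.EM μ) (n T : ℕ) (S : Finset (ℕ × ℤ)) (b0 : ℤ) {A : ℝ}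
    (hA : 0 < A) (hS : ∀ q ∈ S, q.1 ≤ n ∧ 0 ≤ q.2 - b0 ∧ q.2 - b0 ≤ ((T + q.1 : ℕ) : ℤ))
    (hX : ∀ q ∈ S, ∫ η, max (X μ s η 0 (T + q.1) (q.2 - b0)) 0 ∂(law μ) ≤ A) (Y : ℝ) :
    ∫ η, io (∃ q ∈ S, Y ≤ V μ s η ((q.1 : ℤ), q.2) (2 * n - q.1)) ∂(law μ) ≤
      2 * ∫ η, io (Y - 2 * A ≤ V μ s η 0 (T + 2 * n)) ∂(law μ) := by
  classical
  obtain ⟨r, hr⟩ : ∃ r : (ℕ × ℤ) → ℤ ×ₗ ℤ, r = fun q => toLex (-(q.1 : ℤ), q.2) := ⟨_, rfl⟩
  have hrinj : Function.Injective r := by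
    intro q q' h
    rw [hr] at h
    have h1 := toLex.injective h
    rw [Prod.mk.injEq] at h1
    refine Prod.ext ?_ h1.2
    have := h1.1
    omega
  have hrle : ∀ q q', r q ≤ r q' → q'.1 ≤ q.1 := by
    intro q q' h
    rw [hr] at h
    rcases (Prod.Lex.le_iff).1 h with h1 | h1
    · have h2 : -(q.1 : ℤ) < -(q'.1 : ℤ) := h1
      omega
    · have h2 : -(q.1 : ℤ) = -(q'.1 : ℤ) := h1.1
      omega
  obtain ⟨p, hp⟩ : ∃ p : (ℕ × ℤ) → Env → Prop, p = fun q η => Y ≤ V μ s η ((q.1 : ℤ), q.2) (2 * n - q.1) := ⟨_, rfl⟩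
  have hpm : ∀ q, MeasurableSet {η | p q η} := fun q => by
    rw [hp]
    exact measurableSet_le measurable_const (measurable_V _ _)
  obtain ⟨ι, hι⟩ : ∃ ι : (ℕ × ℤ) → Env → ℝ, ι = fun q η => io (Fi S r (fun j => p j η) q) := ⟨_, rfl⟩
  have hιS : ∀ q ∈ S, Sub (ι q) := fun q hq => by
    rw [hι]
    exact Sub_io (meas_Fi S r (fun j _ => hpm j) hq)
  have hι0 : ∀ q η, 0 ≤ ι q η := fun k η => by rw [hι]; exact io_nonneg _
  have hιd : ∀ q ∈ S, DependsOn (ι q) (rows (q.1 : ℤ) (2 * n : ℤ)) := by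
    intro q hq
    rw [hι]
    refine dep_Fi S r hq fun j hjS hj η η' h => ?_
    rw [hp]
    show Y ≤ _ ↔ Y ≤ _
    have h1 : V μ s η ((j.1 : ℤ), j.2) (2 * n - j.1) = V μ s η' ((j.1 : ℤ), j.2) (2 * n - j.1) := by
      refine V_dep_rows (μ := μ) (s := s) _ _ fun x hx => h x (rows_mono ?_ ?_ hx)
      · have := hrle _ _ hj
        show (q.1 : ℤ) ≤ (j.1 : ℤ)
        exact_mod_cast this
      · have := (hS j hjS).1
        show ((j.1 : ℕ) : ℤ) + ((2 * n - j.1 : ℕ) : ℤ) ≤ 2 * n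
        omega
    rw [h1]
  have hιsum : ∀ η, ∑ q ∈ S, ι q η = io (∃ q ∈ S, p q η) := by
    intro η
    rw [hι]
    exact sum_Fi S hrinj fun j => p j η
  obtain ⟨c, hc⟩ : ∃ c : Pt, c = (-(T : ℤ), b0) := ⟨_, rfl⟩
  obtain ⟨R, hR⟩ : ∃ R : (ℕ × ℤ) → Env → ℝ, R = fun q η => max (X μ s η c (T + q.1) (q.2 - b0)) 0 := ⟨_, rfl⟩
  have hRS : ∀ q ∈ S, Sub (R q) := fun q hq => by
    rw [hR]
    exact Sub_Xp _ (hS q hq).2.1 (hS q hq).2.2
  have hR0 : ∀ q η, 0 ≤ R q η := fun q η => by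
    rw [hR]
    exact le_max_right _ _
  have hRi : ∀ q ∈ S, ∫ η, ι q η * R q η ∂(law μ) ≤ A * ∫ η, ι q η ∂(law μ) := by
    intro q hq
    have h3 : DependsOn (R q) (rows (-(T : ℤ)) (q.1 : ℤ)) := by
      intro η η' h
      rw [hR]
      have h5 : X μ s η c (T + q.1) (q.2 - b0) = X μ s η' c (T + q.1) (q.2 - b0) := by
        refine X_dep_rows (μ := μ) (s := s) _ _ _ fun x hx => h x (rows_mono ?_ ?_ hx)
        · rw [hc]
        · rw [hc]
          show -(T : ℤ) + ((T + q.1 : ℕ) : ℤ) ≤ (q.1 : ℤ)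
          push_cast
          linarith
      show max _ (0 : ℝ) = max _ 0
      rw [h5]
    rw [integral_indep (hιS q hq).1 (hRS q hq).1 (hιd q hq) h3 (rows_disj le_rfl).symm, mul_comm]
    refine mul_le_mul_of_nonneg_right ?_ (integral_nonneg fun η => hι0 q η)
    rw [hR]
    show ∫ η, max (X μ s η c (T + q.1) (q.2 - b0)) 0 ∂(law μ) ≤ A
    rw [integral_Xp]
    exact hX q hq
  have hpt : ∀ η, ∑ q ∈ S, ι q η * io (R q η ≤ 2 * A) ≤ io (Y - 2 * A ≤ V μ s η c (T + 2 * n)) := by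
    intro η
    by_cases hBη : Y - 2 * A ≤ V μ s η c (T + 2 * n)
    · rw [io_of hBη]
      refine (Finset.sum_le_sum fun κ _ => ?_).trans ((hιsum η).trans_le (io_le_one _))
      exact mul_le_of_le_one_right (hι0 κ η) (io_le_one _)
    · rw [io_not hBη]
      refine (Finset.sum_eq_zero fun q hq => ?_).le
      by_cases h1 : R q η ≤ 2 * A
      · by_cases h2 : Fi S r (fun j => p j η) q
        · exfalso
          apply hBη
          have h3 : p q η := h2.1
          rw [hp] at h3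
          have h3' : Y ≤ V μ s η ((q.1 : ℤ), q.2) (2 * n - q.1) := h3
          obtain ⟨hq1, hq2, hq3⟩ := hS q hq
          have h4 := V_add_ge (μ := μ) (s := s) η c (T + q.1) (2 * n - q.1) (k := q.2 - b0) hq2 hq3
          have e1 : T + q.1 + (2 * n - q.1) = T + 2 * n := by omega
          have e2 : ((c.1 + ((T + q.1 : ℕ) : ℤ), c.2 + (q.2 - b0)) : Pt) = ((q.1 : ℤ), q.2) := by
            rw [hc]
            ext
            · show -(T : ℤ) + ((T + q.1 : ℕ) : ℤ) = (q.1 : ℤ)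
              push_cast
              ring
            · show b0 + (q.2 - b0) = q.2
              ring
          rw [e1, e2] at h4
          have h5 : X μ s η c (T + q.1) (q.2 - b0) ≤ R q η := by
            rw [hR]
            exact le_max_left _ _
          linarith
        · have h3 : ι q η = 0 := by
            rw [hι]
            exact io_not h2
          rw [h3, zero_mul]
      · rw [io_not h1, mul_zero]
  have hGm : ∀ c' : Pt, MeasurableSet {η | Y - 2 * A ≤ V μ s η c' (T + 2 * n)} := fun c' =>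
    measurableSet_le measurable_const (measurable_V _ _)
  have hSi : ∀ q ∈ S, Integrable (fun η => ι q η * io (R q η ≤ 2 * A)) (law μ) := fun q hq =>
    Sub.mul_integrable hEM (hιS q hq) (Sub_io (measurableSet_le (hRS q hq).1 measurable_const))
  have h1 := integral_mono (integrable_finsetSum _ hSi) ((Sub_io (hGm c)).integrable hEM) hpt
  rw [integral_finsetSum _ hSi] at h1
  have h2 : ∫ η, io (∃ q ∈ S, Y ≤ V μ s η ((q.1 : ℤ), q.2) (2 * n - q.1)) ∂(law μ) =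
      ∑ q ∈ S, ∫ η, ι q η ∂(law μ) := by
    rw [← integral_finsetSum _ fun q hq => (hιS q hq).integrable hEM]
    refine integral_congr_ae (Filter.Eventually.of_forall fun η => ?_)
    show io _ = ∑ q ∈ S, ι q η
    rw [hιsum, hp]
  rw [h2]
  have h3 : ∑ q ∈ S, ∫ η, ι q η ∂(law μ) ≤ ∑ q ∈ S, 2 * ∫ η, ι q η * io (R q η ≤ 2 * A) ∂(law μ) :=
    Finset.sum_le_sum fun q hq => half_mass hEM (hιS q hq) (hι0 q) (hRS q hq).1 (hR0 q)
      (Sub.mul_integrable hEM (hιS q hq) (hRS q hq)) hA (hRi q hq)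
  rw [← Finset.mul_sum] at h3
  have hmio : Measurable fun x : ℝ => io (Y - 2 * A ≤ x) := by
    have h2 : (fun x : ℝ => io (Y - 2 * A ≤ x)) = fun x => if x ∈ Set.Ici (Y - 2 * A) then (1 : ℝ) else 0 := by
      funext x
      by_cases h : Y - 2 * A ≤ x
      · rw [io_of h, if_pos (show x ∈ Set.Ici (Y - 2 * A) from h)]
      · rw [io_not h, if_neg (show ¬ x ∈ Set.Ici (Y - 2 * A) from h)]
    rw [h2]
    exact Measurable.ite measurableSet_Ici measurable_const measurable_const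
  have h4 := integral_V_fun (μ := μ) (s := s) hmio c (T + 2 * n)
  linarith

/-- Row 620, (0): the positive part of the luck. -/
theorem V_plus (hEM : Pool.Agent.W_7d29a1_h47.EM μ) {n : ℕ} {E : ℝ} (hX : hXE μ s n E) {m : ℕ} (hm : m ≤ 8 * n) :
    ∫ η, max (V μ s η 0 m) 0 ∂(law μ) ≤ E := by
  have h1 := hX m ((m : ℤ) / 2) hm (by omega) (by omega) (by rw [abs_le]; omega)
  have h2 := integral_V_nonpos hEM s m
  have h3 : ∀ η, max (V μ s η 0 m) 0 ≤ V μ s η 0 m + max (X μ s η 0 m ((m : ℤ) / 2)) 0 := by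
    intro η
    have h4 := neg_X_le_V (μ := μ) (s := s) η 0 (n := m) (y := (m : ℤ) / 2) (by omega) (by omega)
    have h5 := le_max_left (X μ s η 0 m ((m : ℤ) / 2)) 0
    have h6 := le_max_right (X μ s η 0 m ((m : ℤ) / 2)) 0
    exact max_le (by linarith) (by linarith)
  have h4 := integral_mono (((Sub_V 0 m).max (Sub.const 0)).integrable hEM)
    (((Sub_V 0 m).integrable hEM).add ((Sub_Xp 0 (by omega) (by omega)).integrable hEM)) h3
  rw [integral_add' ((Sub_V 0 m).integrable hEM) ((Sub_Xp 0 (by omega) (by omega)).integrable hEM)] at h4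
  linarith

/-- Row 620, (0): the positive part of the cost, from its mean. -/
theorem Xp_le (hEM : Pool.Agent.W_7d29a1_h47.EM μ) {n : ℕ} {E : ℝ} (hX : hXE μ s n E) {m : ℕ} (hm : m ≤ 8 * n)
    {y : ℤ} (h0 : 0 ≤ y) (h1 : y ≤ m) : ∫ η, max (X μ s η 0 m y) 0 ∂(law μ) ≤ e μ s m y + E := by
  have h2 := V_plus hEM hX hm
  have h3 : ∀ η, max (X μ s η 0 m y) 0 ≤ X μ s η 0 m y + max (V μ s η 0 m) 0 := by
    intro η
    have h4 := neg_X_le_V (μ := μ) (s := s) η 0 h0 h1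
    have h5 := le_max_left (V μ s η 0 m) 0
    have h6 := le_max_right (V μ s η 0 m) 0
    exact max_le (by linarith) (by linarith)
  have i1 := (Sub_X (μ := μ) (s := s) 0 h0 h1).integrable hEM
  have i2 := ((Sub_V (μ := μ) (s := s) 0 m).max (Sub.const 0)).integrable hEM
  have h4 := integral_mono ((Sub_Xp 0 h0 h1).integrable hEM) (i1.add i2) h3
  rw [integral_add' i1 i2] at h4
  have e1 : ∫ η, X μ s η 0 m y ∂(law μ) = e μ s m y := rfl
  linarith

/-- BOX LUCK (row 620, (1)): `4 E / (Y - 2 E - 2 A)`, where `A` bounds the mean of the positive parts of the costs from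
`(-T, b0)` to the starts. -/
theorem box_luck (hEM : Pool.Agent.W_7d29a1_h47.EM μ) {n T : ℕ} {E : ℝ} (hE : 0 < E)
    (hX : hXE μ s n E) (hT : T + 2 * n ≤ 8 * n) (S : Finset (ℕ × ℤ)) (b0 : ℤ) {A : ℝ} (hA : 0 < A)
    (hS : ∀ q ∈ S, q.1 ≤ n ∧ 0 ≤ q.2 - b0 ∧ q.2 - b0 ≤ ((T + q.1 : ℕ) : ℤ))
    (hXS : ∀ q ∈ S, ∫ η, max (X μ s η 0 (T + q.1) (q.2 - b0)) 0 ∂(law μ) ≤ A) {Y : ℝ} (hY : 2 * E + 2 * A < Y) :
    (law μ).real {η | ∃ q ∈ S, ∃ j, q.1 + j ≤ n ∧ Y ≤ V μ s η ((q.1 : ℤ), q.2) j} ≤ 4 * E / (Y - 2 * E - 2 * A) := by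
  have hm3 : MeasurableSet {η : Env | ∃ q ∈ S, ∃ j, q.1 + j ≤ n ∧ Y ≤ V μ s η ((q.1 : ℤ), q.2) j} := by
    have e : {η : Env | ∃ q ∈ S, ∃ j, q.1 + j ≤ n ∧ Y ≤ V μ s η ((q.1 : ℤ), q.2) j} =
        ⋃ q ∈ S, ⋃ j ∈ Finset.range (n + 1), {η : Env | q.1 + j ≤ n ∧ Y ≤ V μ s η ((q.1 : ℤ), q.2) j} := by
      ext η
      simp only [Set.mem_ofPred_eq, Set.mem_iUnion, exists_prop]
      constructor
      · rintro ⟨q, hq, j, h1, h2⟩
        exact ⟨q, hq, j, Finset.mem_range.2 (by omega), h1, h2⟩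
      · rintro ⟨q, hq, j, _, h1, h2⟩
        exact ⟨q, hq, j, h1, h2⟩
    rw [e]
    refine Finset.measurableSet_biUnion _ fun q _ => Finset.measurableSet_biUnion _ fun j _ => ?_
    exact (MeasurableSet.const _).inter (measurableSet_le measurable_const (Sub_V _ _).1)
  rw [← integral_io_real hm3]
  have h1 := first_completion (μ := μ) (s := s) hEM n S (y := fun m => (m : ℤ) / 2)
    (fun m _ _ => by constructor <;> omega) hE
    (fun m h1 h2 => hX m _ (by omega) (by omega) (by omega) (by rw [abs_le]; omega)) Y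
  have h2 := latest_start_pt (μ := μ) (s := s) hEM n T S b0 hA hS hXS (Y - 2 * E)
  have h3 := V_plus hEM hX hT
  have hD : 0 < Y - 2 * E - 2 * A := by linarith
  have h4 : ∫ η, io (Y - 2 * E - 2 * A ≤ V μ s η 0 (T + 2 * n)) ∂(law μ) ≤ E / (Y - 2 * E - 2 * A) := by
    have h5 : ∀ η, io (Y - 2 * E - 2 * A ≤ V μ s η 0 (T + 2 * n)) ≤
        max (V μ s η 0 (T + 2 * n)) 0 * (1 / (Y - 2 * E - 2 * A)) := by
      intro η
      by_cases hp : Y - 2 * E - 2 * A ≤ V μ s η 0 (T + 2 * n)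
      · rw [io_of hp, mul_one_div, le_div_iff₀ hD]
        have := le_max_left (V μ s η 0 (T + 2 * n)) 0
        linarith
      · rw [io_not hp]
        have := le_max_right (V μ s η 0 (T + 2 * n)) 0
        positivity
    have h6 := integral_mono ((Sub_io (measurableSet_le measurable_const (Sub_V _ _).1)).integrable hEM)
      ((((Sub_V (μ := μ) (s := s) 0 (T + 2 * n)).max (Sub.const 0)).integrable hEM).mul_const _) h5
    rw [integral_mul_const] at h6
    refine h6.trans ?_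
    rw [mul_one_div]
    exact div_le_div_of_nonneg_right h3 hD.le
  have e3 : 4 * E / (Y - 2 * E - 2 * A) = 4 * (E / (Y - 2 * E - 2 * A)) := by ring
  rw [e3]
  linarith

end Pool.Agent.W_7d29a1_L78
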