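import Pool.Agent.W_7d29a1_h60.LuckBound

/-!
Theorem A of the exponential moments `L*` (proofs table, board 48463, 49292): the first moment of the best start on
one row, and the comparison of the largest luck of a slanted box with it (first completion, then latest start).
One tilt, any direction. (helper78)
-/

namespace Pool.Agent.W_7d29a1_L78

open MeasureTheory ProbabilityTheory Filter Topology Pool.Agent.W_7d29a1_F Pool.Agent.W_7d29a1_h60

noncomputable section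

variable {μ : Measure ℝ} {s : ℝ}

/-- The best luck (at least `0`) of the starts `c + (0, p)`, `0 ≤ p ≤ w + 1`, over the time `3 n`. -/
def Gr (μ : Measure ℝ) (s : ℝ) (n w : ℕ) (η : Env) (c : Pt) : ℝ :=
  max 0 ((Finset.Icc (0 : ℤ) ((w : ℤ) + 1)).sup' ⟨0, by simp; omega⟩ fun p => V μ s η (c.1, c.2 + p) (3 * n))

theorem Gr_nonneg (n w : ℕ) (η : Env) (c : Pt) : 0 ≤ Gr μ s n w η c := le_max_left _ _

theorem le_Gr (n w : ℕ) (η : Env) (c : Pt) {p : ℤ} (h0 : 0 ≤ p) (h1 : p ≤ w + 1) :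
    V μ s η (c.1, c.2 + p) (3 * n) ≤ Gr μ s n w η c :=
  (Finset.le_sup' (fun p => V μ s η (c.1, c.2 + p) (3 * n)) (Finset.mem_Icc.2 ⟨h0, h1⟩)).trans (le_max_right _ _)

theorem Gr_sh (n w : ℕ) (η : Env) (c : Pt) : Gr μ s n w (sh c η) 0 = Gr μ s n w η c := by
  unfold Gr
  congr 1
  refine Finset.sup'_congr _ rfl fun p _ => ?_
  rw [V_sh]
  congr 1
  ext
  · show (0 : ℤ) + c.1 = c.1
    ring
  · show (0 : ℤ) + p + c.2 = c.2 + p
    ring

theorem Sub_Gr (n w : ℕ) (c : Pt) : Sub fun η => Gr μ s n w η c := by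
  unfold Gr
  exact (Sub.const 0).max (Sub.sup' _ _ fun p _ => Sub_V _ _)

theorem Sub_Xp (a : Pt) {n : ℕ} {y : ℤ} (h0 : 0 ≤ y) (h1 : y ≤ n) : Sub fun η => max (X μ s η a n y) 0 :=
  (Sub_X a h0 h1).max (Sub.const 0)

variable [IsProbabilityMeasure μ]

/-- The law of the best luck does not depend on the place. -/
theorem integral_Gr_fun {f : ℝ → ℝ} (hf : Measurable f) (n w : ℕ) (c : Pt) :
    ∫ η, f (Gr μ s n w η c) ∂(law μ) = ∫ η, f (Gr μ s n w η 0) ∂(law μ) := by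
  have h := (mp_sh (μ := μ) c).map_eq
  have hm : Measurable fun η : Env => f (Gr μ s n w η 0) := hf.comp (Sub_Gr n w 0).1
  conv_rhs => rw [← h]
  rw [integral_map (mp_sh (μ := μ) c).measurable.aemeasurable hm.aestronglyMeasurable]
  refine integral_congr_ae (Filter.Eventually.of_forall fun η => ?_)
  show f (Gr μ s n w η c) = f (Gr μ s n w (sh c η) 0)
  rw [Gr_sh]

/-- The law of the cost does not depend on the place. -/
theorem integral_X_fun {f : ℝ → ℝ} (hf : Measurable f) (a : Pt) (n : ℕ) (y : ℤ) :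
    ∫ η, f (X μ s η a n y) ∂(law μ) = ∫ η, f (X μ s η 0 n y) ∂(law μ) := by
  have h := (mp_sh (μ := μ) a).map_eq
  have hm : Measurable fun η : Env => f (X μ s η 0 n y) := hf.comp (measurable_X 0 n y)
  conv_rhs => rw [← h]
  rw [integral_map (mp_sh (μ := μ) a).measurable.aemeasurable hm.aestronglyMeasurable]
  refine integral_congr_ae (Filter.Eventually.of_forall fun η => ?_)
  show f (X μ s η a n y) = f (X μ s (sh a η) 0 n y)
  rw [X_sh, zero_add]

theorem integral_Xp (a : Pt) (n : ℕ) (y : ℤ) :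
    ∫ η, max (X μ s η a n y) 0 ∂(law μ) = ∫ η, max (X μ s η 0 n y) 0 ∂(law μ) :=
  integral_X_fun (f := fun x => max x 0) (measurable_id.max measurable_const) a n y

/-- The mean of a function of the future, averaged over the end point. -/
theorem cont_gen (hEM : Pool.Agent.W_7d29a1_h47.EM μ) (a : Pt) (l : ℕ) {ι : Env → ℝ} (hιm : Measurable ι)
    (hι0 : ∀ η, 0 ≤ ι η) (hι1 : ∀ η, ι η ≤ 1) {c : ℤ} (hca : c ≤ a.1) (hιd : DependsOn ι (rows c (a.1 + l)))
    {F : ℤ → Env → ℝ} (hF : ∀ k, Sub (F k)) {d : ℤ} (hFd : ∀ k, DependsOn (F k) (rows (a.1 + l) d)) {f : ℝ}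
    (hFi : ∀ k, ∫ η, F k η ∂(law μ) = f) :
    Integrable (fun η => ι η * ((∑ k ∈ Finset.Icc (0 : ℤ) l, W μ s η a l k * F k η) /
      Real.exp (V μ s η a l))) (law μ) ∧
    ∫ η, ι η * ((∑ k ∈ Finset.Icc (0 : ℤ) l, W μ s η a l k * F k η) /
      Real.exp (V μ s η a l)) ∂(law μ) = (∫ η, ι η ∂(law μ)) * f := by
  classical
  have hg : ∀ k ∈ Finset.Icc (0 : ℤ) l, ∀ η : Env, 0 ≤ ι η * (W μ s η a l k / Real.exp (V μ s η a l)) ∧
      ι η * (W μ s η a l k / Real.exp (V μ s η a l)) ≤ 1 := by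
    intro k hk η
    have h1 : 0 ≤ W μ s η a l k / Real.exp (V μ s η a l) := div_nonneg (W_nonneg _ _ _ _) (Real.exp_pos _).le
    have h2 : W μ s η a l k / Real.exp (V μ s η a l) ≤ 1 := by
      rw [div_le_one (Real.exp_pos _), exp_V]
      unfold WS
      exact Finset.single_le_sum (f := fun k => W μ s η a l k) (fun k _ => W_nonneg _ _ _ _) hk
    refine ⟨mul_nonneg (hι0 η) h1, ?_⟩
    have h3 := mul_le_mul (hι1 η) h2 h1 zero_le_one
    linarith
  have hgm : ∀ k : ℤ, Measurable fun η : Env => ι η * (W μ s η a l k / Real.exp (V μ s η a l)) := fun k =>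
    hιm.mul ((measurable_W a l k).div (Real.measurable_exp.comp (measurable_V a l)))
  have hgS : ∀ k ∈ Finset.Icc (0 : ℤ) l, Sub fun η => ι η * (W μ s η a l k / Real.exp (V μ s η a l)) := fun k hk =>
    Sub_bdd (hgm k) fun η => by
      rw [abs_of_nonneg (hg k hk η).1]
      exact (hg k hk η).2
  have hgd : ∀ k : ℤ, DependsOn (fun η : Env => ι η * (W μ s η a l k / Real.exp (V μ s η a l)))
      (rows c (a.1 + l)) := by
    intro k η η' h
    have h1 : ∀ x ∈ rows a.1 (a.1 + l), η x = η' x := fun x hx => h x (rows_mono hca le_rfl hx)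
    have h2 : V μ s η a l = V μ s η' a l := V_dep_rows (μ := μ) (s := s) a l h1
    have h3 : W μ s η a l k = W μ s η' a l k := W_dep_rows (μ := μ) (s := s) a l k h1
    have h4 : ι η = ι η' := hιd h
    show ι η * (W μ s η a l k / Real.exp (V μ s η a l)) = ι η' * (W μ s η' a l k / Real.exp (V μ s η' a l))
    rw [h2, h3, h4]
  have he : ∀ η : Env, ι η * ((∑ k ∈ Finset.Icc (0 : ℤ) l, W μ s η a l k * F k η) /
      Real.exp (V μ s η a l)) = ∑ k ∈ Finset.Icc (0 : ℤ) l,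
        (ι η * (W μ s η a l k / Real.exp (V μ s η a l))) * F k η := by
    intro η
    rw [Finset.sum_div, Finset.mul_sum]
    refine Finset.sum_congr rfl fun k _ => ?_
    ring
  have hint : ∀ k ∈ Finset.Icc (0 : ℤ) l, Integrable (fun η =>
      (ι η * (W μ s η a l k / Real.exp (V μ s η a l))) * F k η) (law μ) := fun k hk =>
    Sub.mul_integrable hEM (hgS k hk) (hF k)
  simp only [he]
  refine ⟨integrable_finsetSum _ hint, ?_⟩
  rw [integral_finsetSum _ hint]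
  have h1 : ∀ k ∈ Finset.Icc (0 : ℤ) l, ∫ η, (ι η * (W μ s η a l k / Real.exp (V μ s η a l))) * F k η ∂(law μ) =
      (∫ η, ι η * (W μ s η a l k / Real.exp (V μ s η a l)) ∂(law μ)) * f := by
    intro k _
    rw [integral_indep (hgm k) (hF k).1 (hgd k) (hFd k) (rows_disj le_rfl), hFi]
  rw [Finset.sum_congr rfl h1, ← Finset.sum_mul, ← integral_finsetSum _ fun k hk => (hgS k hk).integrable hEM]
  congr 1
  refine integral_congr_ae (Filter.Eventually.of_forall fun η => ?_)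
  show ∑ k ∈ Finset.Icc (0 : ℤ) l, ι η * (W μ s η a l k / Real.exp (V μ s η a l)) = ι η
  rw [← Finset.mul_sum, ← Finset.sum_div, exp_V]
  have h2 : 0 < WS μ s η a l (Finset.Icc (0 : ℤ) l) := by
    rw [← exp_V]
    exact Real.exp_pos _
  unfold WS at h2 ⊢
  rw [div_self h2.ne', mul_one]

/-- Half of the mass of `ι` has `R ≤ 2 A` if `∫ ι R ≤ A ∫ ι` (Markov). -/
theorem half_mass (hEM : Pool.Agent.W_7d29a1_h47.EM μ) {ι R : Env → ℝ} (hιS : Sub ι) (hι0 : ∀ η, 0 ≤ ι η)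
    (hRm : Measurable R) (hR0 : ∀ η, 0 ≤ R η) (hi : Integrable (fun η => ι η * R η) (law μ)) {A : ℝ} (hA : 0 < A)
    (h : ∫ η, ι η * R η ∂(law μ) ≤ A * ∫ η, ι η ∂(law μ)) :
    ∫ η, ι η ∂(law μ) ≤ 2 * ∫ η, ι η * io (R η ≤ 2 * A) ∂(law μ) := by
  have hm : MeasurableSet {η | R η ≤ 2 * A} := measurableSet_le hRm measurable_const
  have h1 : ∀ η, ι η ≤ ι η * io (R η ≤ 2 * A) + ι η * R η * (1 / (2 * A)) := by
    intro η
    by_cases h2 : R η ≤ 2 * A
    · rw [io_of h2, mul_one]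
      have h3 : 0 ≤ ι η * R η * (1 / (2 * A)) := by
        have := mul_nonneg (hι0 η) (hR0 η)
        positivity
      linarith
    · rw [io_not h2, mul_zero, zero_add]
      have h3 : 1 ≤ R η * (1 / (2 * A)) := by
        rw [mul_one_div, le_div_iff₀ (by positivity)]
        linarith [not_le.1 h2]
      have h4 := mul_le_mul_of_nonneg_left h3 (hι0 η)
      linarith
  have i1 : Integrable (fun η => ι η * io (R η ≤ 2 * A)) (law μ) :=
    Sub.mul_integrable hEM hιS (Sub_io hm)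
  have h5 := integral_mono (hιS.integrable hEM) (i1.add (hi.mul_const (1 / (2 * A)))) h1
  simp only [Pi.add_apply] at h5
  rw [integral_add i1 (hi.mul_const _), integral_mul_const] at h5
  have h6 : (∫ η, ι η * R η ∂(law μ)) * (1 / (2 * A)) ≤ (∫ η, ι η ∂(law μ)) / 2 := by
    rw [mul_one_div, div_le_iff₀ (by positivity)]
    linarith
  linarith

/-- (A1) THE FIRST MOMENT OF THE BEST START ON ONE ROW: if the displacements `(4 n, ⌊4 v n⌋)` and `(n, ⌊v n⌋ + p)`,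
`0 ≤ p ≤ w + 1`, cost at most `A` in the mean (positive part), then the mean of the best luck is at most `2 A`. -/
theorem row_mean (hEM : Pool.Agent.W_7d29a1_h47.EM μ) (n w : ℕ) {y0 y4 : ℤ} (h4 : 0 ≤ y4) (h4' : y4 ≤ (4 * n : ℕ))
    (h0 : 0 ≤ y0) (h0' : y0 + w + 1 ≤ n) {A : ℝ} (hX4 : ∫ η, max (X μ s η 0 (4 * n) y4) 0 ∂(law μ) ≤ A)
    (hX1 : ∀ p : ℤ, 0 ≤ p → p ≤ w + 1 → ∫ η, max (X μ s η 0 n (y0 + p)) 0 ∂(law μ) ≤ A) :
    ∫ η, Gr μ s n w η 0 ∂(law μ) ≤ 2 * A := by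
  classical
  have hA : 0 ≤ A := (integral_nonneg fun η => le_max_right _ _).trans hX4
  obtain ⟨c, hc⟩ : ∃ c : Pt, c = ((n : ℤ), y0) := ⟨_, rfl⟩
  obtain ⟨I, hI⟩ : ∃ I : Finset ℤ, I = Finset.Icc (0 : ℤ) ((w : ℤ) + 1) := ⟨_, rfl⟩
  have hIm : ∀ p ∈ I, 0 ≤ p ∧ p ≤ w + 1 := fun p hp => by
    rw [hI, Finset.mem_Icc] at hp
    exact hp
  obtain ⟨U, hU⟩ : ∃ U : ℤ → Env → ℝ, U = fun p η => V μ s η (c.1, c.2 + p) (3 * n) := ⟨_, rfl⟩
  obtain ⟨p, hp⟩ : ∃ p : ℤ → Env → Prop, p = fun k η => A ≤ U k η ∧ ∀ q ∈ I, U q η ≤ U k η := ⟨_, rfl⟩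
  have hUm : ∀ k, Measurable (U k) := fun k => by
    rw [hU]
    exact measurable_V _ _
  have hUS : ∀ k, Sub (U k) := fun k => by
    rw [hU]
    exact Sub_V _ _
  have hpm : ∀ k, MeasurableSet {η | p k η} := by
    intro k
    have e1 : {η | p k η} = {η | A ≤ U k η} ∩ ⋂ q ∈ I, {η | U q η ≤ U k η} := by
      rw [hp]
      ext η
      simp only [Set.mem_ofPred_eq, Set.mem_inter_iff, Set.mem_iInter]
    rw [e1]
    exact (measurableSet_le measurable_const (hUm k)).inter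
      (Finset.measurableSet_biInter I fun q _ => measurableSet_le (hUm q) (hUm k))
  obtain ⟨ι, hι⟩ : ∃ ι : ℤ → Env → ℝ, ι = fun k η => io (Fi I (fun j => j) (fun j => p j η) k) := ⟨_, rfl⟩
  have hιS : ∀ k ∈ I, Sub (ι k) := fun k hk => by
    rw [hι]
    exact Sub_io (meas_Fi I (fun j => j) (fun j _ => hpm j) hk)
  have hι0 : ∀ k η, 0 ≤ ι k η := fun k η => by rw [hι]; exact io_nonneg _
  have hUd : ∀ k, ∀ η η' : Env, (∀ x ∈ rows (n : ℤ) (4 * n : ℤ), η x = η' x) → U k η = U k η' := by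
    intro k η η' h
    rw [hU]
    refine V_dep_rows (μ := μ) (s := s) (c.1, c.2 + k) (3 * n) fun x hx => h x (rows_mono ?_ ?_ hx)
    · rw [hc]
    · rw [hc]
      show (n : ℤ) + ((3 * n : ℕ) : ℤ) ≤ 4 * n
      push_cast
      linarith
  have hιd : ∀ k ∈ I, DependsOn (ι k) (rows (n : ℤ) (4 * n : ℤ)) := by
    intro k hk
    rw [hι]
    refine dep_Fi I (fun j => j) hk fun j _ _ η η' h => ?_
    rw [hp]
    show (A ≤ U j η ∧ ∀ q ∈ I, U q η ≤ U j η) ↔ (A ≤ U j η' ∧ ∀ q ∈ I, U q η' ≤ U j η')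
    rw [hUd j η η' h]
    refine and_congr_right fun _ => forall_congr' fun q => forall_congr' fun _ => ?_
    rw [hUd q η η' h]
  have hιsum : ∀ η, ∑ k ∈ I, ι k η = io (∃ k ∈ I, p k η) := by
    intro η
    rw [hι]
    exact sum_Fi I Function.injective_id fun j => p j η
  -- the pointwise inequality
  have hpt : ∀ η : Env, max (Gr μ s n w η c - A) 0 + A * ∑ k ∈ I, ι k η ≤
      V μ s η 0 (4 * n) + max (X μ s η 0 (4 * n) y4) 0 + ∑ k ∈ I, ι k η * max (X μ s η 0 n (y0 + k)) 0 := by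
    intro η
    obtain ⟨v, hv⟩ : ∃ v, v = V μ s η 0 (4 * n) := ⟨_, rfl⟩
    have hlast : -max (X μ s η 0 (4 * n) y4) 0 ≤ v := by
      have h1 := neg_X_le_V (μ := μ) (s := s) η (0 : Pt) (n := 4 * n) (y := y4) h4 h4'
      have h3 := le_max_left (X μ s η 0 (4 * n) y4) 0
      linarith
    have hx0 : (0 : ℝ) ≤ max (X μ s η 0 (4 * n) y4) 0 := le_max_right _ _
    have h1 : ∀ k ∈ I, ι k η * U k η ≤ ι k η * v + ι k η * max (X μ s η 0 n (y0 + k)) 0 := by
      intro k hk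
      obtain ⟨hk0, hk1⟩ := hIm k hk
      have h2 := V_add_ge (μ := μ) (s := s) η (0 : Pt) n (3 * n) (k := y0 + k) (by linarith) (by linarith)
      have e1 : n + 3 * n = 4 * n := by ring
      rw [e1] at h2
      have e2 : (((0 : Pt).1 + (n : ℤ), (0 : Pt).2 + (y0 + k)) : Pt) = (c.1, c.2 + k) := by
        rw [hc]
        simp
      rw [e2] at h2
      have h3 := le_max_left (X μ s η 0 n (y0 + k)) 0
      have h5 : U k η ≤ v + max (X μ s η 0 n (y0 + k)) 0 := by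
        rw [hU, hv]
        show V μ s η (c.1, c.2 + k) (3 * n) ≤ _
        linarith
      have h6 := mul_le_mul_of_nonneg_left h5 (hι0 k η)
      linarith
    have h2 := Finset.sum_le_sum h1
    rw [Finset.sum_add_distrib, ← Finset.sum_mul, hιsum] at h2
    have h3 : max (Gr μ s n w η c - A) 0 + A * io (∃ k ∈ I, p k η) ≤ ∑ k ∈ I, ι k η * U k η := by
      by_cases hex : ∃ k ∈ I, p k η
      · rw [io_of hex, mul_one]
        obtain ⟨k0, hk0, hpk⟩ := hex
        have hpk' := hpk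
        rw [hp] at hpk'
        obtain ⟨hAk, hmax⟩ : A ≤ U k0 η ∧ ∀ q ∈ I, U q η ≤ U k0 η := hpk'
        have hG : Gr μ s n w η c ≤ U k0 η := by
          unfold Gr
          refine max_le (hA.trans hAk) (Finset.sup'_le _ _ fun q hq => ?_)
          have h5 := hmax q (by rw [hI]; exact hq)
          rw [hU] at h5 ⊢
          exact h5
        have h6 : ∀ k ∈ I, ι k η * (U k0 η) ≤ ι k η * U k η := by
          intro k hk
          by_cases h7 : Fi I (fun j => j) (fun j => p j η) k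
          · have h8 : p k η := h7.1
            rw [hp] at h8
            exact mul_le_mul_of_nonneg_left (h8.2 k0 hk0) (hι0 k η)
          · have h8 : ι k η = 0 := by
              rw [hι]
              exact io_not h7
            rw [h8, zero_mul, zero_mul]
        have h9 := Finset.sum_le_sum h6
        rw [← Finset.sum_mul, hιsum, io_of ⟨k0, hk0, hpk⟩, one_mul] at h9
        have h10 : max (Gr μ s n w η c - A) 0 ≤ U k0 η - A := max_le (by linarith) (by linarith)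
        linarith
      · rw [io_not hex, mul_zero, add_zero]
        have hG : Gr μ s n w η c ≤ A := by
          unfold Gr
          refine max_le hA ?_
          by_contra hcon
          obtain ⟨k0, hk0, hkm⟩ := Finset.exists_max_image I (fun k => U k η) (by
            rw [hI]
            exact ⟨0, by simp; omega⟩)
          refine hex ⟨k0, hk0, ?_⟩
          rw [hp]
          refine ⟨?_, hkm⟩
          refine (not_le.1 hcon).le.trans (Finset.sup'_le _ _ fun q hq => ?_)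
          have h5 := hkm q (by rw [hI]; exact hq)
          rw [hU] at h5 ⊢
          exact h5
        have h5 : max (Gr μ s n w η c - A) 0 = 0 := max_eq_right (by linarith)
        rw [h5]
        refine Finset.sum_nonneg fun k hk => ?_
        have h7 : ι k η = 0 := by
          rw [hι]
          exact io_not fun h8 => hex ⟨k, hk, h8.1⟩
        rw [h7, zero_mul]
    have h5 := io_nonneg (∃ k ∈ I, p k η)
    have h6 := io_le_one (∃ k ∈ I, p k η)
    rw [hιsum, ← hv]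
    nlinarith
  -- integrals
  have hGS : Sub fun η => max (Gr μ s n w η c - A) 0 := ((Sub_Gr n w c).sub (Sub.const A)).max (Sub.const 0)
  have hVS : Sub fun η => V μ s η 0 (4 * n) := Sub_V _ _
  have hX4S : Sub fun η => max (X μ s η 0 (4 * n) y4) 0 := Sub_Xp 0 h4 h4'
  have hXS : ∀ k ∈ I, Sub fun η => max (X μ s η 0 n (y0 + k)) 0 := fun k hk =>
    Sub_Xp 0 (by linarith [(hIm k hk).1]) (by linarith [(hIm k hk).2])
  have hind : ∀ k ∈ I, ∫ η, ι k η * max (X μ s η 0 n (y0 + k)) 0 ∂(law μ) ≤ A * ∫ η, ι k η ∂(law μ) := by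
    intro k hk
    have h3 : DependsOn (fun η => max (X μ s η 0 n (y0 + k)) 0) (rows 0 (n : ℤ)) := by
      intro η η' h
      have h5 : X μ s η 0 n (y0 + k) = X μ s η' 0 n (y0 + k) := by
        refine X_dep_rows (μ := μ) (s := s) 0 n (y0 + k) fun x hx => h x (rows_mono le_rfl ?_ hx)
        show (0 : ℤ) + (n : ℤ) ≤ _
        rw [zero_add]
      show max (X μ s η 0 n (y0 + k)) 0 = max (X μ s η' 0 n (y0 + k)) 0
      rw [h5]
    rw [integral_indep (hιS k hk).1 (hXS k hk).1 (hιd k hk) h3 (rows_disj le_rfl).symm, mul_comm]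
    exact mul_le_mul_of_nonneg_right (hX1 k (hIm k hk).1 (hIm k hk).2) (integral_nonneg fun η => hι0 k η)
  have I1 : Integrable (fun η => ∑ k ∈ I, ι k η) (law μ) :=
    integrable_finsetSum _ fun k hk => (hιS k hk).integrable hEM
  have I2 : Integrable (fun η => ∑ k ∈ I, ι k η * max (X μ s η 0 n (y0 + k)) 0) (law μ) :=
    integrable_finsetSum _ fun k hk => Sub.mul_integrable hEM (hιS k hk) (hXS k hk)
  have I3 := hGS.integrable hEM
  have I4 := hVS.integrable hEM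
  have I5 := hX4S.integrable hEM
  have I6 : Integrable (fun η => V μ s η 0 (4 * n) + max (X μ s η 0 (4 * n) y4) 0) (law μ) := I4.add I5
  have hint := integral_mono (I3.add (I1.const_mul A)) (I6.add I2) hpt
  simp only [Pi.add_apply] at hint
  rw [integral_add I3 (I1.const_mul A), integral_add I6 I2, integral_add I4 I5, integral_const_mul,
    integral_finsetSum _ fun k hk => Sub.mul_integrable hEM (hιS k hk) (hXS k hk),
    integral_finsetSum _ fun k hk => (hιS k hk).integrable hEM] at hint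
  have h5 := Finset.sum_le_sum hind
  rw [← Finset.mul_sum] at h5
  have h6 := integral_V_nonpos hEM s (4 * n)
  have h7 : ∫ η, max (Gr μ s n w η c - A) 0 ∂(law μ) ≤ A := by linarith
  have h8 : ∫ η, Gr μ s n w η c ∂(law μ) ≤ ∫ η, (max (Gr μ s n w η c - A) 0 + A) ∂(law μ) := by
    refine integral_mono ((Sub_Gr n w c).integrable hEM) (I3.add (integrable_const A)) fun η => ?_
    have := le_max_left (Gr μ s n w η c - A) 0
    show Gr μ s n w η c ≤ max (Gr μ s n w η c - A) 0 + A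
    linarith
  rw [integral_add I3 (integrable_const A), integral_const, probReal_univ, one_smul] at h8
  have h9 := integral_Gr_fun (μ := μ) (s := s) measurable_id n w c
  simp only [id] at h9
  linarith

/-- FIRST COMPLETION: a luck `Y` of some start of `S` before the level `n` gives, with half of the probability, a luck
`Y - 2 A` of some start of `S` up to the level `2 n`. -/
theorem first_completion (hEM : Pool.Agent.W_7d29a1_h47.EM μ) (n : ℕ) (S : Finset (ℕ × ℤ)) {y : ℕ → ℤ}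
    (hy : ∀ m, n ≤ m → m ≤ 2 * n → 0 ≤ y m ∧ y m ≤ m) {A : ℝ} (hA : 0 < A)
    (hX : ∀ m, n ≤ m → m ≤ 2 * n → ∫ η, max (X μ s η 0 m (y m)) 0 ∂(law μ) ≤ A) (Y : ℝ) :
    ∫ η, io (∃ q ∈ S, ∃ j, q.1 + j ≤ n ∧ Y ≤ V μ s η ((q.1 : ℤ), q.2) j) ∂(law μ) ≤
      2 * ∫ η, io (∃ q ∈ S, Y - 2 * A ≤ V μ s η ((q.1 : ℤ), q.2) (2 * n - q.1)) ∂(law μ) := by
  classical
  obtain ⟨K, hK⟩ : ∃ K : Finset ((ℕ × ℤ) × ℕ), K = (S ×ˢ Finset.range (n + 1)).filter fun κ => κ.1.1 + κ.2 ≤ n :=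
    ⟨_, rfl⟩
  have hKm : ∀ κ ∈ K, κ.1 ∈ S ∧ κ.1.1 + κ.2 ≤ n := by
    intro κ hκ
    rw [hK, Finset.mem_filter, Finset.mem_product] at hκ
    exact ⟨hκ.1.1, hκ.2⟩
  obtain ⟨r, hr⟩ : ∃ r : ((ℕ × ℤ) × ℕ) → ℕ ×ₗ (ℕ ×ₗ ℤ), r = fun κ => toLex (κ.1.1 + κ.2, toLex (κ.1.1, κ.1.2)) :=
    ⟨_, rfl⟩
  have hrinj : Function.Injective r := by
    intro κ κ' h
    rw [hr] at h
    have h1 := toLex.injective h
    rw [Prod.mk.injEq] at h1
    have h2 := toLex.injective h1.2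
    rw [Prod.mk.injEq] at h2
    have h3 := h1.1
    refine Prod.ext (Prod.ext h2.1 h2.2) ?_
    have := h2.1
    omega
  have hrle : ∀ κ κ', r κ ≤ r κ' → κ.1.1 + κ.2 ≤ κ'.1.1 + κ'.2 := by
    intro κ κ' h
    rw [hr] at h
    rcases (Prod.Lex.le_iff).1 h with h1 | h1
    · exact h1.le
    · exact h1.1.le
  obtain ⟨p, hp⟩ : ∃ p : ((ℕ × ℤ) × ℕ) → Env → Prop, p = fun κ η => Y ≤ V μ s η ((κ.1.1 : ℤ), κ.1.2) κ.2 := ⟨_, rfl⟩
  have hpm : ∀ κ, MeasurableSet {η | p κ η} := fun κ => by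
    rw [hp]
    exact measurableSet_le measurable_const (measurable_V _ _)
  obtain ⟨ι, hι⟩ : ∃ ι : ((ℕ × ℤ) × ℕ) → Env → ℝ, ι = fun κ η => io (Fi K r (fun j => p j η) κ) := ⟨_, rfl⟩
  have hιS : ∀ κ ∈ K, Sub (ι κ) := fun κ hκ => by
    rw [hι]
    exact Sub_io (meas_Fi K r (fun j _ => hpm j) hκ)
  have hι0 : ∀ κ η, 0 ≤ ι κ η := fun k η => by rw [hι]; exact io_nonneg _
  have hι1 : ∀ κ η, ι κ η ≤ 1 := fun k η => by rw [hι]; exact io_le_one _
  have hιd : ∀ κ ∈ K, DependsOn (ι κ) (rows 0 ((κ.1.1 : ℤ) + κ.2)) := by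
    intro κ hκ
    rw [hι]
    refine dep_Fi K r hκ fun j _ hj η η' h => ?_
    rw [hp]
    show Y ≤ _ ↔ Y ≤ _
    have h1 : V μ s η ((j.1.1 : ℤ), j.1.2) j.2 = V μ s η' ((j.1.1 : ℤ), j.1.2) j.2 := by
      refine V_dep_rows (μ := μ) (s := s) _ _ fun x hx => h x (rows_mono ?_ ?_ hx)
      · exact Int.natCast_nonneg _
      · have := hrle _ _ hj
        show ((j.1.1 : ℕ) : ℤ) + (j.2 : ℤ) ≤ (κ.1.1 : ℤ) + κ.2
        exact_mod_cast this
    rw [h1]
  have hιsum : ∀ η, ∑ κ ∈ K, ι κ η = io (∃ κ ∈ K, p κ η) := by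
    intro η
    rw [hι]
    exact sum_Fi K hrinj fun j => p j η
  have hev : ∀ η, (∃ q ∈ S, ∃ j, q.1 + j ≤ n ∧ Y ≤ V μ s η ((q.1 : ℤ), q.2) j) ↔ ∃ κ ∈ K, p κ η := by
    intro η
    rw [hp]
    constructor
    · rintro ⟨q, hq, j, hj, h1⟩
      refine ⟨(q, j), ?_, h1⟩
      rw [hK, Finset.mem_filter, Finset.mem_product, Finset.mem_range]
      exact ⟨⟨hq, by omega⟩, hj⟩
    · rintro ⟨κ, hκ, h1⟩
      exact ⟨κ.1, (hKm κ hκ).1, κ.2, (hKm κ hκ).2, h1⟩
  -- the continuation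
  obtain ⟨R, hR⟩ : ∃ R : ((ℕ × ℤ) × ℕ) → Env → ℝ, R = fun κ η => (∑ k ∈ Finset.Icc (0 : ℤ) κ.2,
      W μ s η ((κ.1.1 : ℤ), κ.1.2) κ.2 k * max (X μ s η ((κ.1.1 : ℤ) + κ.2, κ.1.2 + k)
        (2 * n - (κ.1.1 + κ.2)) (y (2 * n - (κ.1.1 + κ.2)))) 0) / Real.exp (V μ s η ((κ.1.1 : ℤ), κ.1.2) κ.2) :=
    ⟨_, rfl⟩
  have hRc : ∀ κ ∈ K, Integrable (fun η => ι κ η * R κ η) (law μ) ∧
      ∫ η, ι κ η * R κ η ∂(law μ) ≤ A * ∫ η, ι κ η ∂(law μ) := by
    intro κ hκ
    have hτ := (hKm κ hκ).2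
    have hm1 : n ≤ 2 * n - (κ.1.1 + κ.2) := by omega
    have hm2 : 2 * n - (κ.1.1 + κ.2) ≤ 2 * n := by omega
    have h1 := cont_gen (μ := μ) (s := s) hEM (((κ.1.1 : ℕ) : ℤ), κ.1.2) κ.2 (hιS κ hκ).1 (hι0 κ) (hι1 κ) (c := 0)
      (Int.natCast_nonneg _) (hιd κ hκ)
      (F := fun k η => max (X μ s η ((κ.1.1 : ℤ) + κ.2, κ.1.2 + k)
        (2 * n - (κ.1.1 + κ.2)) (y (2 * n - (κ.1.1 + κ.2)))) 0)
      (fun k => Sub_Xp _ (hy _ hm1 hm2).1 (hy _ hm1 hm2).2)
      (d := (κ.1.1 : ℤ) + κ.2 + ((2 * n - (κ.1.1 + κ.2) : ℕ) : ℤ)) (fun k η η' h => by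
        have h5 : X μ s η ((κ.1.1 : ℤ) + κ.2, κ.1.2 + k) (2 * n - (κ.1.1 + κ.2)) (y (2 * n - (κ.1.1 + κ.2))) =
          X μ s η' ((κ.1.1 : ℤ) + κ.2, κ.1.2 + k) (2 * n - (κ.1.1 + κ.2)) (y (2 * n - (κ.1.1 + κ.2))) :=
          X_dep_rows (μ := μ) (s := s) _ _ _ h
        show max _ (0 : ℝ) = max _ 0
        rw [h5])
      (f := ∫ η, max (X μ s η 0 (2 * n - (κ.1.1 + κ.2)) (y (2 * n - (κ.1.1 + κ.2)))) 0 ∂(law μ))
      (fun k => integral_Xp _ _ _)
    rw [hR]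
    refine ⟨h1.1, h1.2.trans_le ?_⟩
    rw [mul_comm]
    exact mul_le_mul_of_nonneg_right (hX _ hm1 hm2) (integral_nonneg fun η => hι0 κ η)
  have hR0 : ∀ κ η, 0 ≤ R κ η := by
    intro κ η
    rw [hR]
    exact div_nonneg (Finset.sum_nonneg fun k _ => mul_nonneg (W_nonneg _ _ _ _) (le_max_right _ _)) (Real.exp_pos _).le
  have hRm : ∀ κ ∈ K, Measurable (R κ) := by
    intro κ _
    rw [hR]
    exact (Finset.measurable_fun_sum _ fun k _ => (measurable_W _ _ _).mul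
      ((measurable_X _ _ _).max measurable_const)).div (Real.measurable_exp.comp (measurable_V _ _))
  obtain ⟨B, hB⟩ : ∃ B : Env → Prop, B = fun η => ∃ q ∈ S, Y - 2 * A ≤ V μ s η ((q.1 : ℤ), q.2) (2 * n - q.1) :=
    ⟨_, rfl⟩
  have hBm : MeasurableSet {η | B η} := by
    have e : {η | B η} = ⋃ q ∈ S, {η | Y - 2 * A ≤ V μ s η ((q.1 : ℤ), q.2) (2 * n - q.1)} := by
      rw [hB]
      ext η
      simp only [Set.mem_ofPred_eq, Set.mem_iUnion, exists_prop]
    rw [e]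
    exact Finset.measurableSet_biUnion _ fun q _ => measurableSet_le measurable_const (measurable_V _ _)
  have hpt : ∀ η, ∑ κ ∈ K, ι κ η * io (R κ η ≤ 2 * A) ≤ io (B η) := by
    intro η
    by_cases hBη : B η
    · rw [io_of hBη]
      refine (Finset.sum_le_sum fun κ _ => ?_).trans ((hιsum η).trans_le (io_le_one _))
      exact mul_le_of_le_one_right (hι0 κ η) (io_le_one _)
    · rw [io_not hBη]
      refine (Finset.sum_eq_zero fun κ hκ => ?_).le
      by_cases h1 : R κ η ≤ 2 * A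
      · by_cases h2 : Fi K r (fun j => p j η) κ
        · exfalso
          apply hBη
          rw [hB]
          refine ⟨κ.1, (hKm κ hκ).1, ?_⟩
          have hτ := (hKm κ hκ).2
          have hm1 : n ≤ 2 * n - (κ.1.1 + κ.2) := by omega
          have hm2 : 2 * n - (κ.1.1 + κ.2) ≤ 2 * n := by omega
          have h3 : p κ η := h2.1
          rw [hp] at h3
          have h3' : Y ≤ V μ s η ((κ.1.1 : ℤ), κ.1.2) κ.2 := h3
          have h4 := V_add_jensen (μ := μ) (s := s) η (((κ.1.1 : ℕ) : ℤ), κ.1.2) κ.2 (2 * n - (κ.1.1 + κ.2))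
          have e1 : κ.2 + (2 * n - (κ.1.1 + κ.2)) = 2 * n - κ.1.1 := by omega
          rw [e1] at h4
          have h5 : -R κ η ≤ (∑ k ∈ Finset.Icc (0 : ℤ) κ.2, W μ s η ((κ.1.1 : ℤ), κ.1.2) κ.2 k *
              V μ s η ((κ.1.1 : ℤ) + κ.2, κ.1.2 + k) (2 * n - (κ.1.1 + κ.2))) /
                Real.exp (V μ s η ((κ.1.1 : ℤ), κ.1.2) κ.2) := by
            rw [hR]
            show -(_ / _) ≤ _
            rw [← neg_div, ← Finset.sum_neg_distrib]
            refine div_le_div_of_nonneg_right (Finset.sum_le_sum fun k _ => ?_) (Real.exp_pos _).le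
            rw [← mul_neg]
            refine mul_le_mul_of_nonneg_left ?_ (W_nonneg _ _ _ _)
            have h6 := neg_X_le_V (μ := μ) (s := s) η ((κ.1.1 : ℤ) + κ.2, κ.1.2 + k)
              (n := 2 * n - (κ.1.1 + κ.2)) (y := y (2 * n - (κ.1.1 + κ.2))) (hy _ hm1 hm2).1 (hy _ hm1 hm2).2
            have h7 := le_max_left (X μ s η ((κ.1.1 : ℤ) + κ.2, κ.1.2 + k) (2 * n - (κ.1.1 + κ.2))
              (y (2 * n - (κ.1.1 + κ.2)))) 0
            linarith
          show Y - 2 * A ≤ V μ s η ((κ.1.1 : ℤ), κ.1.2) (2 * n - κ.1.1)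
          linarith
        · have h3 : ι κ η = 0 := by
            rw [hι]
            exact io_not h2
          rw [h3, zero_mul]
      · rw [io_not h1, mul_zero]
  have I1 : Integrable (fun η => ∑ κ ∈ K, ι κ η * io (R κ η ≤ 2 * A)) (law μ) :=
    integrable_finsetSum _ fun κ hκ => Sub.mul_integrable hEM (hιS κ hκ)
      (Sub_io (measurableSet_le (hRm κ hκ) measurable_const))
  have h1 := integral_mono I1 ((Sub_io hBm).integrable hEM) hpt
  rw [integral_finsetSum _ fun κ hκ => Sub.mul_integrable hEM (hιS κ hκ)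
      (Sub_io (measurableSet_le (hRm κ hκ) measurable_const))] at h1
  have h2 : ∫ η, io (∃ q ∈ S, ∃ j, q.1 + j ≤ n ∧ Y ≤ V μ s η ((q.1 : ℤ), q.2) j) ∂(law μ) =
      ∑ κ ∈ K, ∫ η, ι κ η ∂(law μ) := by
    rw [← integral_finsetSum _ fun κ hκ => (hιS κ hκ).integrable hEM]
    refine integral_congr_ae (Filter.Eventually.of_forall fun η => ?_)
    show io _ = ∑ κ ∈ K, ι κ η
    rw [hιsum, propext (hev η)]
  rw [h2]
  have h3 : ∑ κ ∈ K, ∫ η, ι κ η ∂(law μ) ≤ ∑ κ ∈ K, 2 * ∫ η, ι κ η * io (R κ η ≤ 2 * A) ∂(law μ) :=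
    Finset.sum_le_sum fun κ hκ => half_mass hEM (hιS κ hκ) (hι0 κ) (hRm κ hκ) (hR0 κ) (hRc κ hκ).1 hA (hRc κ hκ).2
  rw [← Finset.mul_sum] at h3
  have h4 : ∫ η, io (B η) ∂(law μ) =
      ∫ η, io (∃ q ∈ S, Y - 2 * A ≤ V μ s η ((q.1 : ℤ), q.2) (2 * n - q.1)) ∂(law μ) := by rw [hB]
  rw [← h4]
  linarith

/-- LATEST START: a luck `Y` up to the level `2 n` of some start of `S` gives, with half of the probability, a luck
`Y - 2 A` of the row `-n` over the time `3 n`. -/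
theorem latest_start (hEM : Pool.Agent.W_7d29a1_h47.EM μ) (n w : ℕ) (S : Finset (ℕ × ℤ)) {y : ℕ → ℤ}
    (hy : ∀ m, n ≤ m → m ≤ 2 * n → 0 ≤ y m ∧ y m ≤ m) {A : ℝ} (hA : 0 < A)
    (hX : ∀ m, n ≤ m → m ≤ 2 * n → ∫ η, max (X μ s η 0 m (y m)) 0 ∂(law μ) ≤ A) {p0 : ℤ}
    (hS : ∀ q ∈ S, q.1 ≤ n ∧ p0 ≤ q.2 - y (q.1 + n) ∧ q.2 - y (q.1 + n) ≤ p0 + w + 1) (Y : ℝ) :
    ∫ η, io (∃ q ∈ S, Y ≤ V μ s η ((q.1 : ℤ), q.2) (2 * n - q.1)) ∂(law μ) ≤
      2 * ∫ η, io (Y - 2 * A ≤ Gr μ s n w η 0) ∂(law μ) := by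
  classical
  obtain ⟨r, hr⟩ : ∃ r : (ℕ × ℤ) → ℤ ×ₗ ℤ, r = fun q => toLex (-(q.1 : ℤ), q.2) := ⟨_, rfl⟩
  have hrinj : Function.Injective r := by
    intro q q' h
    rw [hr] at h
    have h1 := toLex.injective h
    rw [Prod.mk.injEq] at h1
    refine Prod.ext ?_ h1.2
    have := h1.1
    omega
  have hrle : ∀ q q', r q ≤ r q' → q'.1 ≤ q.1 := by
    intro q q' h
    rw [hr] at h
    rcases (Prod.Lex.le_iff).1 h with h1 | h1
    · have h2 : -(q.1 : ℤ) < -(q'.1 : ℤ) := h1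
      omega
    · have h2 : -(q.1 : ℤ) = -(q'.1 : ℤ) := h1.1
      omega
  obtain ⟨p, hp⟩ : ∃ p : (ℕ × ℤ) → Env → Prop, p = fun q η => Y ≤ V μ s η ((q.1 : ℤ), q.2) (2 * n - q.1) := ⟨_, rfl⟩
  have hpm : ∀ q, MeasurableSet {η | p q η} := fun q => by
    rw [hp]
    exact measurableSet_le measurable_const (measurable_V _ _)
  obtain ⟨ι, hι⟩ : ∃ ι : (ℕ × ℤ) → Env → ℝ, ι = fun q η => io (Fi S r (fun j => p j η) q) := ⟨_, rfl⟩
  have hιS : ∀ q ∈ S, Sub (ι q) := fun q hq => by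
    rw [hι]
    exact Sub_io (meas_Fi S r (fun j _ => hpm j) hq)
  have hι0 : ∀ q η, 0 ≤ ι q η := fun k η => by rw [hι]; exact io_nonneg _
  have hιd : ∀ q ∈ S, DependsOn (ι q) (rows (q.1 : ℤ) (2 * n : ℤ)) := by
    intro q hq
    rw [hι]
    refine dep_Fi S r hq fun j hjS hj η η' h => ?_
    rw [hp]
    show Y ≤ _ ↔ Y ≤ _
    have h1 : V μ s η ((j.1 : ℤ), j.2) (2 * n - j.1) = V μ s η' ((j.1 : ℤ), j.2) (2 * n - j.1) := by
      refine V_dep_rows (μ := μ) (s := s) _ _ fun x hx => h x (rows_mono ?_ ?_ hx)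
      · have := hrle _ _ hj
        show (q.1 : ℤ) ≤ (j.1 : ℤ)
        exact_mod_cast this
      · have := (hS j hjS).1
        show ((j.1 : ℕ) : ℤ) + ((2 * n - j.1 : ℕ) : ℤ) ≤ 2 * n
        omega
    rw [h1]
  have hιsum : ∀ η, ∑ q ∈ S, ι q η = io (∃ q ∈ S, p q η) := by
    intro η
    rw [hι]
    exact sum_Fi S hrinj fun j => p j η
  obtain ⟨R, hR⟩ : ∃ R : (ℕ × ℤ) → Env → ℝ, R = fun q η =>
      max (X μ s η (-(n : ℤ), q.2 - y (q.1 + n)) (q.1 + n) (y (q.1 + n))) 0 := ⟨_, rfl⟩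
  have hmm : ∀ q ∈ S, n ≤ q.1 + n ∧ q.1 + n ≤ 2 * n := fun q hq => by
    have := (hS q hq).1
    omega
  have hRS : ∀ q ∈ S, Sub (R q) := fun q hq => by
    rw [hR]
    exact Sub_Xp _ (hy _ (hmm q hq).1 (hmm q hq).2).1 (hy _ (hmm q hq).1 (hmm q hq).2).2
  have hR0 : ∀ q η, 0 ≤ R q η := fun q η => by
    rw [hR]
    exact le_max_right _ _
  have hRi : ∀ q ∈ S, ∫ η, ι q η * R q η ∂(law μ) ≤ A * ∫ η, ι q η ∂(law μ) := by
    intro q hq
    have h3 : DependsOn (R q) (rows (-(n : ℤ)) (q.1 : ℤ)) := by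
      intro η η' h
      rw [hR]
      have h5 : X μ s η (-(n : ℤ), q.2 - y (q.1 + n)) (q.1 + n) (y (q.1 + n)) =
          X μ s η' (-(n : ℤ), q.2 - y (q.1 + n)) (q.1 + n) (y (q.1 + n)) := by
        refine X_dep_rows (μ := μ) (s := s) _ _ _ fun x hx => h x (rows_mono le_rfl ?_ hx)
        show -(n : ℤ) + ((q.1 + n : ℕ) : ℤ) ≤ (q.1 : ℤ)
        push_cast
        linarith
      show max _ (0 : ℝ) = max _ 0
      rw [h5]
    rw [integral_indep (hιS q hq).1 (hRS q hq).1 (hιd q hq) h3 (rows_disj le_rfl).symm, mul_comm]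
    refine mul_le_mul_of_nonneg_right ?_ (integral_nonneg fun η => hι0 q η)
    rw [hR]
    show ∫ η, max (X μ s η (-(n : ℤ), q.2 - y (q.1 + n)) (q.1 + n) (y (q.1 + n))) 0 ∂(law μ) ≤ A
    rw [integral_Xp]
    exact hX _ (hmm q hq).1 (hmm q hq).2
  obtain ⟨c, hc⟩ : ∃ c : Pt, c = (-(n : ℤ), p0) := ⟨_, rfl⟩
  have hpt : ∀ η, ∑ q ∈ S, ι q η * io (R q η ≤ 2 * A) ≤ io (Y - 2 * A ≤ Gr μ s n w η c) := by
    intro η
    by_cases hBη : Y - 2 * A ≤ Gr μ s n w η c
    · rw [io_of hBη]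
      refine (Finset.sum_le_sum fun κ _ => ?_).trans ((hιsum η).trans_le (io_le_one _))
      exact mul_le_of_le_one_right (hι0 κ η) (io_le_one _)
    · rw [io_not hBη]
      refine (Finset.sum_eq_zero fun q hq => ?_).le
      by_cases h1 : R q η ≤ 2 * A
      · by_cases h2 : Fi S r (fun j => p j η) q
        · exfalso
          apply hBη
          have h3 : p q η := h2.1
          rw [hp] at h3
          have h3' : Y ≤ V μ s η ((q.1 : ℤ), q.2) (2 * n - q.1) := h3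
          obtain ⟨hq1, hq2, hq3⟩ := hS q hq
          have h4 := V_add_ge (μ := μ) (s := s) η (-(n : ℤ), q.2 - y (q.1 + n)) (q.1 + n) (2 * n - q.1)
            (k := y (q.1 + n)) (hy _ (hmm q hq).1 (hmm q hq).2).1 (hy _ (hmm q hq).1 (hmm q hq).2).2
          have e1 : q.1 + n + (2 * n - q.1) = 3 * n := by omega
          have e2 : ((-(n : ℤ) + ((q.1 + n : ℕ) : ℤ), q.2 - y (q.1 + n) + y (q.1 + n)) : Pt) =
              ((q.1 : ℤ), q.2) := by
            ext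
            · show -(n : ℤ) + ((q.1 + n : ℕ) : ℤ) = (q.1 : ℤ)
              push_cast
              ring
            · show q.2 - y (q.1 + n) + y (q.1 + n) = q.2
              ring
          rw [e1] at h4
          rw [show (((-(n : ℤ), q.2 - y (q.1 + n)) : Pt).1 + ((q.1 + n : ℕ) : ℤ),
            ((-(n : ℤ), q.2 - y (q.1 + n)) : Pt).2 + y (q.1 + n)) = ((q.1 : ℤ), q.2) from e2] at h4
          have h5 : X μ s η (-(n : ℤ), q.2 - y (q.1 + n)) (q.1 + n) (y (q.1 + n)) ≤ R q η := by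
            rw [hR]
            exact le_max_left _ _
          have h6 := le_Gr (μ := μ) (s := s) n w η c (p := q.2 - y (q.1 + n) - p0) (by linarith) (by linarith)
          have e3 : ((c.1, c.2 + (q.2 - y (q.1 + n) - p0)) : Pt) = (-(n : ℤ), q.2 - y (q.1 + n)) := by
            rw [hc]
            ext
            · rfl
            · show p0 + (q.2 - y (q.1 + n) - p0) = q.2 - y (q.1 + n)
              ring
          rw [e3] at h6
          linarith
        · have h3 : ι q η = 0 := by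
            rw [hι]
            exact io_not h2
          rw [h3, zero_mul]
      · rw [io_not h1, mul_zero]
  have hGm : ∀ c' : Pt, MeasurableSet {η | Y - 2 * A ≤ Gr μ s n w η c'} := fun c' =>
    measurableSet_le measurable_const (Sub_Gr n w c').1
  have hSi : ∀ q ∈ S, Integrable (fun η => ι q η * io (R q η ≤ 2 * A)) (law μ) := fun q hq =>
    Sub.mul_integrable hEM (hιS q hq) (Sub_io (measurableSet_le (hRS q hq).1 measurable_const))
  have h1 := integral_mono (integrable_finsetSum _ hSi) ((Sub_io (hGm c)).integrable hEM) hpt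
  rw [integral_finsetSum _ hSi] at h1
  have h2 : ∫ η, io (∃ q ∈ S, Y ≤ V μ s η ((q.1 : ℤ), q.2) (2 * n - q.1)) ∂(law μ) =
      ∑ q ∈ S, ∫ η, ι q η ∂(law μ) := by
    rw [← integral_finsetSum _ fun q hq => (hιS q hq).integrable hEM]
    refine integral_congr_ae (Filter.Eventually.of_forall fun η => ?_)
    show io _ = ∑ q ∈ S, ι q η
    rw [hιsum, hp]
  rw [h2]
  have h3 : ∑ q ∈ S, ∫ η, ι q η ∂(law μ) ≤ ∑ q ∈ S, 2 * ∫ η, ι q η * io (R q η ≤ 2 * A) ∂(law μ) :=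
    Finset.sum_le_sum fun q hq => half_mass hEM (hιS q hq) (hι0 q) (hRS q hq).1 (hR0 q)
      (Sub.mul_integrable hEM (hιS q hq) (hRS q hq)) hA (hRi q hq)
  rw [← Finset.mul_sum] at h3
  have hmio : Measurable fun x : ℝ => io (Y - 2 * A ≤ x) := by
    have h2 : (fun x : ℝ => io (Y - 2 * A ≤ x)) = fun x => if x ∈ Set.Ici (Y - 2 * A) then (1 : ℝ) else 0 := by
      funext x
      by_cases h : Y - 2 * A ≤ x
      · rw [io_of h, if_pos (show x ∈ Set.Ici (Y - 2 * A) from h)]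
      · rw [io_not h, if_neg (show ¬ x ∈ Set.Ici (Y - 2 * A) from h)]
    rw [h2]
    exact Measurable.ite measurableSet_Ici measurable_const measurable_const
  have h4 := integral_Gr_fun (μ := μ) (s := s) hmio n w c
  linarith

/-- (A2) THE LARGEST LUCK OF A BOX AGAINST THE BEST START ON ONE ROW. -/
theorem box_row (hEM : Pool.Agent.W_7d29a1_h47.EM μ) (n w : ℕ) (S : Finset (ℕ × ℤ)) {y : ℕ → ℤ}
    (hy : ∀ m, n ≤ m → m ≤ 2 * n → 0 ≤ y m ∧ y m ≤ m) {A : ℝ} (hA : 0 < A)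
    (hX : ∀ m, n ≤ m → m ≤ 2 * n → ∫ η, max (X μ s η 0 m (y m)) 0 ∂(law μ) ≤ A) {p0 : ℤ}
    (hS : ∀ q ∈ S, q.1 ≤ n ∧ p0 ≤ q.2 - y (q.1 + n) ∧ q.2 - y (q.1 + n) ≤ p0 + w + 1) (Y : ℝ) :
    ∫ η, io (∃ q ∈ S, ∃ j, q.1 + j ≤ n ∧ Y ≤ V μ s η ((q.1 : ℤ), q.2) j) ∂(law μ) ≤
      4 * ∫ η, io (Y - 4 * A ≤ Gr μ s n w η 0) ∂(law μ) := by
  have h1 := first_completion (μ := μ) (s := s) hEM n S hy hA hX Y
  have h2 := latest_start (μ := μ) (s := s) hEM n w S hy hA hX hS (Y - 2 * A)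
  have e : Y - 2 * A - 2 * A = Y - 4 * A := by ring
  rw [e] at h2
  linarith

end

end Pool.Agent.W_7d29a1_L78
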