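import Pool.Agent.W_7d29a1_L78.RowA
import Pool.Agent.W_7d29a1_L.LsDefs

/-!
THEOREM A of `L*` in the form `HitV` of `W_7d29a1_L/LsDefs.lean` (helper80): one tilt, any direction. (helper78)
-/

namespace Pool.Agent.W_7d29a1_L78

open MeasureTheory ProbabilityTheory Filter Topology Pool.Agent.W_7d29a1_F Pool.Agent.W_7d29a1_h60
open Pool.Agent.W_7d29a1_L

variable {μ : Measure ℝ} {s : ℝ}

theorem integral_io_real {p : Env → Prop} (h : MeasurableSet {η | p η}) :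
    ∫ η, io (p η) ∂(law μ) = (law μ).real {η | p η} := by
  classical
  have e : (fun η => io (p η)) = Set.indicator {η | p η} fun _ => (1 : ℝ) := by
    funext η
    by_cases hp : p η
    · rw [io_of hp, Set.indicator_of_mem (show η ∈ {η | p η} from hp)]
    · rw [io_not hp, Set.indicator_of_notMem (show η ∉ {η | p η} from hp)]
  rw [e, integral_indicator h, setIntegral_const, smul_eq_mul, mul_one]

/-- THEOREM A. The hypotheses are upper bounds of mean costs in the direction `v` (times `n .. 2 n` and `4 n`) and in the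
window `⌊v n⌋ + [0, ⌈w⌉ + 1]` at the time `n`. -/
theorem hitV [IsProbabilityMeasure μ] (hEM : Pool.Agent.W_7d29a1_h47.EM μ) {v w : ℝ} {n : ℕ} (hv0 : 0 ≤ v)
    (hv1 : v ≤ 1) (hn : ⌊v * n⌋ + ⌈w⌉₊ + 1 ≤ n) {A : ℝ} (hA : 0 < A)
    (hX : ∀ m : ℕ, n ≤ m → m ≤ 2 * n → ∫ η, max (X μ s η 0 m ⌊v * m⌋) 0 ∂(law μ) ≤ A)
    (hX4 : ∫ η, max (X μ s η 0 (4 * n) ⌊v * (4 * n : ℕ)⌋) 0 ∂(law μ) ≤ A)
    (hX1 : ∀ p : ℤ, 0 ≤ p → p ≤ ⌈w⌉₊ + 1 → ∫ η, max (X μ s η 0 n (⌊v * n⌋ + p)) 0 ∂(law μ) ≤ A) :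
    HitV μ s v w n (4 * A) := by
  classical
  have hf : ∀ m : ℕ, 0 ≤ ⌊v * m⌋ ∧ ⌊v * m⌋ ≤ m := fun m => by
    have h0 : 0 ≤ v * (m : ℝ) := mul_nonneg hv0 (Nat.cast_nonneg _)
    have h1 : v * (m : ℝ) ≤ m := mul_le_of_le_one_left (Nat.cast_nonneg _) hv1
    refine ⟨Int.floor_nonneg.2 h0, ?_⟩
    have h2 : ((⌊v * (m : ℝ)⌋ : ℤ) : ℝ) ≤ (m : ℤ) := (Int.floor_le _).trans (by exact_mod_cast h1)
    exact_mod_cast h2
  refine ⟨fun η => Gr μ s n ⌈w⌉₊ η 0, (Sub_Gr n ⌈w⌉₊ 0).1, fun η => Gr_nonneg _ _ _ _,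
    (Sub_Gr n ⌈w⌉₊ 0).integrable hEM, ?_, ?_⟩
  · have h := row_mean (μ := μ) (s := s) hEM n ⌈w⌉₊ (y0 := ⌊v * n⌋) (y4 := ⌊v * (4 * n : ℕ)⌋) (hf _).1 (hf _).2
      (hf _).1 hn (A := A) hX4 hX1
    linarith
  · intro z Y _
    have hm1 : MeasurableSet {η : Env | ∃ q ∈ Bx v w z n, Y ≤ V μ s η ((q.1.1 : ℤ), q.1.2) q.2} := by
      have e : {η : Env | ∃ q ∈ Bx v w z n, Y ≤ V μ s η ((q.1.1 : ℤ), q.1.2) q.2} =
          ⋃ q ∈ Bx v w z n, {η : Env | Y ≤ V μ s η ((q.1.1 : ℤ), q.1.2) q.2} := by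
        ext η
        simp
      rw [e]
      exact Finset.measurableSet_biUnion _ fun q _ => measurableSet_le measurable_const (Sub_V _ _).1
    have hm2 : MeasurableSet {η : Env | Y - 4 * A ≤ Gr μ s n ⌈w⌉₊ η 0} :=
      measurableSet_le measurable_const (Sub_Gr n ⌈w⌉₊ 0).1
    rw [← integral_io_real hm1, ← integral_io_real hm2]
    have key := box_row (μ := μ) (s := s) hEM n ⌈w⌉₊ ((Bx v w z n).image fun q => q.1) (y := fun m => ⌊v * m⌋)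
      (fun m _ _ => hf m) hA hX (p0 := ⌊z - v * n⌋ + 1) ?_ Y
    · refine le_trans (integral_mono ?_ ?_ fun η => ?_) key
      · exact (Sub_io hm1).integrable hEM
      · refine (Sub_io ?_).integrable hEM
        have e : {η : Env | ∃ q ∈ (Bx v w z n).image fun q => q.1, ∃ j, q.1 + j ≤ n ∧
            Y ≤ V μ s η ((q.1 : ℤ), q.2) j} =
            ⋃ q ∈ (Bx v w z n).image fun q => q.1, ⋃ j ∈ Finset.range (n + 1),
              {η : Env | q.1 + j ≤ n ∧ Y ≤ V μ s η ((q.1 : ℤ), q.2) j} := by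
          ext η
          simp only [Set.mem_setOf_eq, Set.mem_iUnion, exists_prop]
          constructor
          · rintro ⟨q, hq, j, h1, h2⟩
            exact ⟨q, hq, j, Finset.mem_range.2 (by omega), h1, h2⟩
          · rintro ⟨q, hq, j, _, h1, h2⟩
            exact ⟨q, hq, j, h1, h2⟩
        rw [e]
        refine Finset.measurableSet_biUnion _ fun q _ => Finset.measurableSet_biUnion _ fun j _ => ?_
        exact (MeasurableSet.const _).inter (measurableSet_le measurable_const (Sub_V _ _).1)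
      · show io (∃ q ∈ Bx v w z n, Y ≤ V μ s η ((q.1.1 : ℤ), q.1.2) q.2) ≤ _
        by_cases hp : ∃ q ∈ Bx v w z n, Y ≤ V μ s η ((q.1.1 : ℤ), q.1.2) q.2
        · obtain ⟨q, hq, h⟩ := hp
          have h' : ∃ q ∈ (Bx v w z n).image fun q => q.1, ∃ j, q.1 + j ≤ n ∧ Y ≤ V μ s η ((q.1 : ℤ), q.2) j :=
            ⟨q.1, Finset.mem_image_of_mem _ hq, q.2, ((mem_Bx hv0 hv1).1 hq).1, h⟩
          show _ ≤ io _
          rw [io_of h']
          exact io_le_one _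
        · rw [io_not hp]
          exact io_nonneg _
    · intro q hq
      obtain ⟨r, hr, rfl⟩ := Finset.mem_image.1 hq
      obtain ⟨h1, h2, h3⟩ := (mem_Bx hv0 hv1).1 hr
      refine ⟨by omega, ?_, ?_⟩
      · show ⌊z - v * n⌋ + 1 ≤ r.1.2 - ⌊v * ((r.1.1 + n : ℕ) : ℝ)⌋
        have h4 : ((⌊v * ((r.1.1 + n : ℕ) : ℝ)⌋ : ℤ) : ℝ) ≤ v * ((r.1.1 + n : ℕ) : ℝ) := Int.floor_le _
        push_cast at h4
        have h5 : z - v * n < ((r.1.2 - ⌊v * ((r.1.1 + n : ℕ) : ℝ)⌋ : ℤ) : ℝ) := by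
          push_cast
          linarith
        have h6 := Int.floor_lt.2 h5
        omega
      · show r.1.2 - ⌊v * ((r.1.1 + n : ℕ) : ℝ)⌋ ≤ ⌊z - v * n⌋ + 1 + (⌈w⌉₊ : ℤ) + 1
        have h4 : v * ((r.1.1 + n : ℕ) : ℝ) < ((⌊v * ((r.1.1 + n : ℕ) : ℝ)⌋ : ℤ) : ℝ) + 1 := Int.lt_floor_add_one _
        have h5 : z - v * n < ((⌊z - v * n⌋ : ℤ) : ℝ) + 1 := Int.lt_floor_add_one _
        have h6 : w ≤ (⌈w⌉₊ : ℝ) := Nat.le_ceil w
        have h7 : ((r.1.2 - ⌊v * ((r.1.1 + n : ℕ) : ℝ)⌋ : ℤ) : ℝ) < ((⌊z - v * n⌋ + 1 + (⌈w⌉₊ : ℤ) + 1 : ℤ) : ℝ) := by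
          push_cast at h4 ⊢
          linarith
        have h8 : r.1.2 - ⌊v * ((r.1.1 + n : ℕ) : ℝ)⌋ < ⌊z - v * n⌋ + 1 + (⌈w⌉₊ : ℤ) + 1 := by exact_mod_cast h7
        exact h8.le

end Pool.Agent.W_7d29a1_L78
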