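import Pool.Agent.W_7d29a1_L.LsA2

/-!
ONE CONE (proofs row 620, consequences): slab recursion of the exponential moment of the best start in a cell. (helper78)
-/

namespace Pool.Agent.W_7d29a1_L78

open MeasureTheory ProbabilityTheory Filter Topology Pool.Agent.W_7d29a1_F Pool.Agent.W_7d29a1_L

noncomputable section

/-- The largest tilted luck (at least `0`) of the starts `(0, x)`, `z < x ≤ z + w`, of length `m`. -/
def CM (μ : Measure ℝ) (s v h w z : ℝ) (m : ℕ) (η : Env) : ℝ :=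
  ((Finset.Icc ⌊z⌋ ⌈z + w⌉).filter fun x : ℤ => z < (x : ℝ) ∧ (x : ℝ) ≤ z + w).fold max 0 fun x =>
    T μ s v h η (0, x) m

variable {μ : Measure ℝ} {s v w h0 h h1 κ z : ℝ} {n m : ℕ}

theorem CM_nonneg (η : Env) : 0 ≤ CM μ s v h w z m η := by
  unfold CM
  rw [Finset.le_fold_max]
  exact Or.inl le_rfl

theorem le_CM (η : Env) {x : ℤ} (h1 : z < x) (h2 : (x : ℝ) ≤ z + w) : T μ s v h η (0, x) m ≤ CM μ s v h w z m η := by
  unfold CM
  rw [Finset.le_fold_max]
  refine Or.inr ⟨x, Finset.mem_filter.2 ⟨Finset.mem_Icc.2 ⟨?_, ?_⟩, h1, h2⟩, le_rfl⟩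
  · have : ((⌊z⌋ : ℤ) : ℝ) ≤ x := (Int.floor_le z).trans h1.le
    exact_mod_cast this
  · have : (x : ℝ) ≤ ((⌈z + w⌉ : ℤ) : ℝ) := h2.trans (Int.le_ceil _)
    exact_mod_cast this

theorem CM_le (η : Env) {c : ℝ} (hc : 0 ≤ c) (H : ∀ x : ℤ, z < x → (x : ℝ) ≤ z + w → T μ s v h η (0, x) m ≤ c) :
    CM μ s v h w z m η ≤ c := by
  unfold CM
  rw [Finset.fold_max_le]
  refine ⟨hc, fun x hx => ?_⟩
  rw [Finset.mem_filter] at hx
  exact H x hx.2.1 hx.2.2

theorem Sub_CM : Sub fun η => CM μ s v h w z m η := by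
  classical
  unfold CM
  induction ((Finset.Icc ⌊z⌋ ⌈z + w⌉).filter fun x : ℤ => z < (x : ℝ) ∧ (x : ℝ) ≤ z + w) using Finset.induction_on with
  | empty => exact Sub.const 0
  | insert a s ha ih =>
    simp only [Finset.fold_insert ha]
    exact (Sub_T _ _).max ih

theorem CM_dep : DependsOn (fun η : Env => CM μ s v h w z m η) (rows 0 m) := by
  intro η η' hη
  show CM μ s v h w z m η = CM μ s v h w z m η'
  unfold CM
  refine Finset.fold_congr fun x _ => ?_
  refine T_dep_rows (μ := μ) (s := s) (v := v) (h := h) (0, x) m fun p hp => hη p ?_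
  have e : (((0 : ℤ), x) : Pt).1 + (m : ℤ) = m := by
    show (0 : ℤ) + m = m
    ring
  rw [e] at hp
  exact hp

theorem CM_zero (η : Env) : CM μ s v h w z 0 η = 0 :=
  le_antisymm (CM_le η le_rfl fun x _ _ => (T_zero η _).le) (CM_nonneg η)

/-- One slab: the decomposition at the level `n`, over the cells. -/
theorem exp_T_le_cells (N : Nm v w h0 h h1 κ) (η : Env) {x : ℤ} (x1 : z < x) (x2 : (x : ℝ) ≤ z + w) {D : ℝ}
    (hD : ∀ j ∈ Finset.Icc (-((n : ℤ) + 2)) ((n : ℤ) + 2),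
      CM μ s v h w (z + j * w + v * n) m (sh ((n : ℤ), 0) η) ≤ D + far κ j) :
    Real.exp (T μ s v h η (0, x) (n + m)) ≤
      (Real.exp (T μ s v h0 η (0, x) n) + Real.exp (T μ s v h1 η (0, x) n)) * Real.exp D := by
  have hw1 := N.w1
  have hw0 : 0 < w := by linarith
  have hn0 : (0 : ℝ) ≤ n := Nat.cast_nonneg _
  have hvn0 : 0 ≤ v * n := mul_nonneg N.v0 hn0
  have hvn1 : v * n ≤ n := by
    have := mul_le_mul_of_nonneg_right N.v1 hn0
    linarith
  have hterm : ∀ y ∈ Finset.Icc (0 : ℤ) n,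
      (W μ s η (0, x) n y * Real.exp (h * ((y : ℝ) - v * n))) *
        Real.exp (T μ s v h η (((0 : ℤ), x).1 + n, ((0 : ℤ), x).2 + y) m) ≤
      (W μ s η (0, x) n y * Real.exp (h0 * ((y : ℝ) - v * n)) +
        W μ s η (0, x) n y * Real.exp (h1 * ((y : ℝ) - v * n))) * Real.exp D := by
    intro y hy
    rw [Finset.mem_Icc] at hy
    have hy0 : (0 : ℝ) ≤ y := by exact_mod_cast hy.1
    have hym : (y : ℝ) ≤ n := by exact_mod_cast hy.2
    obtain ⟨j, hj⟩ : ∃ j : ℤ, j = ⌈((x : ℝ) + y - v * n - z) / w⌉ - 1 := ⟨_, rfl⟩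
    have j1 : (x : ℝ) + y - v * n - z ≤ ((j : ℝ) + 1) * w := by
      have a1 := Int.le_ceil (((x : ℝ) + y - v * n - z) / w)
      rw [div_le_iff₀ hw0] at a1
      rw [hj]
      push_cast
      linarith
    have j2 : (j : ℝ) * w < (x : ℝ) + y - v * n - z := by
      have a1 := Int.ceil_lt_add_one (((x : ℝ) + y - v * n - z) / w)
      have a2 : (j : ℝ) < ((x : ℝ) + y - v * n - z) / w := by
        rw [hj]
        push_cast
        linarith
      rwa [lt_div_iff₀ hw0] at a2
    have jn1 : -((n : ℤ) + 2) ≤ j := by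
      have b1 : -(n : ℝ) < ((j : ℝ) + 1) * w := by linarith
      have b2 : -((n : ℝ)) ≤ (j : ℝ) + 1 := by
        by_contra hcon
        have b3 : (j : ℝ) + 1 < -(n : ℝ) := not_le.1 hcon
        have b4 : ((j : ℝ) + 1) * w ≤ (j : ℝ) + 1 := by nlinarith
        linarith
      have b5 : -((n : ℤ)) ≤ j + 1 := by exact_mod_cast b2
      omega
    have jn2 : j ≤ (n : ℤ) + 2 := by
      have b1 : (j : ℝ) * w < w + n := by linarith
      have b2 : (j : ℝ) ≤ n + 1 := by
        by_contra hcon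
        have b3 : (n : ℝ) + 1 < j := not_le.1 hcon
        have b4 : ((n : ℝ) + 1) * w ≤ (j : ℝ) * w := mul_le_mul_of_nonneg_right b3.le hw0.le
        nlinarith
      have b5 : j ≤ (n : ℤ) + 1 := by exact_mod_cast b2
      omega
    have c1 := le_CM (μ := μ) (s := s) (v := v) (h := h) (w := w) (z := z + (j : ℝ) * w + v * n) (m := m)
      (sh ((n : ℤ), 0) η) (x := x + y) (by push_cast; linarith) (by push_cast; linarith)
    rw [T_sh] at c1
    have e1 : (((0 : ℤ), x + y) + ((n : ℤ), 0) : Pt) = (((0 : ℤ), x).1 + n, ((0 : ℤ), x).2 + y) := by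
      refine Prod.ext ?_ ?_
      · show (0 : ℤ) + n = 0 + n
        rfl
      · show x + y + 0 = x + y
        ring
    rw [e1] at c1
    have c2 := hD j (Finset.mem_Icc.2 ⟨jn1, jn2⟩)
    have c3 : Real.exp (T μ s v h η (((0 : ℤ), x).1 + n, ((0 : ℤ), x).2 + y) m) ≤ Real.exp (D + far κ j) :=
      Real.exp_le_exp.2 (c1.trans c2)
    have c4 := tilt_le N (u := (y : ℝ) - v * n) (j := j) (by linarith) (by linarith)
    have hW : 0 ≤ W μ s η (0, x) n y := W_nonneg _ _ _ _
    obtain ⟨A0, hA0⟩ : ∃ A0, A0 = Real.exp (h0 * ((y : ℝ) - v * n)) := ⟨_, rfl⟩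
    obtain ⟨A1, hA1⟩ : ∃ A1, A1 = Real.exp (h1 * ((y : ℝ) - v * n)) := ⟨_, rfl⟩
    rw [← hA0, ← hA1] at c4 ⊢
    have p0 : 0 < A0 := by rw [hA0]; exact Real.exp_pos _
    have p1 : 0 < A1 := by rw [hA1]; exact Real.exp_pos _
    calc (W μ s η (0, x) n y * Real.exp (h * ((y : ℝ) - v * n))) *
          Real.exp (T μ s v h η (((0 : ℤ), x).1 + n, ((0 : ℤ), x).2 + y) m)
        ≤ (W μ s η (0, x) n y * ((A0 + A1) * Real.exp (-far κ j))) * Real.exp (D + far κ j) :=
          mul_le_mul (mul_le_mul_of_nonneg_left c4 hW) c3 (Real.exp_pos _).le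
            (mul_nonneg hW (mul_nonneg (by linarith) (Real.exp_pos _).le))
      _ = (W μ s η (0, x) n y * A0 + W μ s η (0, x) n y * A1) * (Real.exp (-far κ j) * Real.exp (D + far κ j)) := by
          ring
      _ = (W μ s η (0, x) n y * A0 + W μ s η (0, x) n y * A1) * Real.exp D := by
          rw [← Real.exp_add]
          congr 2
          ring
  rw [exp_T_add]
  refine (Finset.sum_le_sum hterm).trans (le_of_eq ?_)
  rw [← Finset.sum_mul, Finset.sum_add_distrib, ← exp_T, ← exp_T]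

/-- The pointwise slab inequality. -/
theorem exp_CM_le (N : Nm v w h0 h h1 κ) {θ : ℝ} (hθ : 0 ≤ θ) (η : Env) :
    Real.exp (θ * CM μ s v h w z (n + m) η) ≤
      (Real.exp (θ * Real.log 2) * (Real.exp (θ * Mh μ s v h0 w z n η) + Real.exp (θ * Mh μ s v h1 w z n η))) *
        ∑ j ∈ Finset.Icc (-((n : ℤ) + 2)) ((n : ℤ) + 2), Real.exp (-(θ * far κ j)) *
          Real.exp (θ * CM μ s v h w (z + j * w + v * n) m (sh ((n : ℤ), 0) η)) := by
  have hlog : 0 < Real.log 2 := Real.log_pos (by norm_num)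
  obtain ⟨js, hjs, hmax⟩ := Finset.exists_max_image (Finset.Icc (-((n : ℤ) + 2)) ((n : ℤ) + 2))
    (fun j : ℤ => CM μ s v h w (z + j * w + v * n) m (sh ((n : ℤ), 0) η) - far κ j)
    ⟨0, Finset.mem_Icc.2 ⟨by omega, by omega⟩⟩
  obtain ⟨D, hD⟩ : ∃ D, D = CM μ s v h w (z + js * w + v * n) m (sh ((n : ℤ), 0) η) - far κ js := ⟨_, rfl⟩
  have hfar0 : far κ 0 = 0 := by
    unfold Pool.Agent.W_7d29a1_L.far
    simp
  have hD0 : 0 ≤ D := by
    have g1 := hmax 0 (Finset.mem_Icc.2 ⟨by omega, by omega⟩)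
    have g2 := CM_nonneg (μ := μ) (s := s) (v := v) (h := h) (w := w) (z := z + ((0 : ℤ) : ℝ) * w + v * n) (m := m)
      (sh ((n : ℤ), 0) η)
    rw [hfar0] at g1
    rw [hD]
    linarith
  obtain ⟨M, hM⟩ : ∃ M, M = max (Mh μ s v h0 w z n η) (Mh μ s v h1 w z n η) := ⟨_, rfl⟩
  have hM0 : 0 ≤ M := by
    rw [hM]
    exact (Mh_nonneg η).trans (le_max_left _ _)
  have hC : CM μ s v h w z (n + m) η ≤ Real.log 2 + M + D := by
    refine CM_le η (by linarith) fun x x1 x2 => ?_
    have g1 := exp_T_le_cells (μ := μ) (s := s) (n := n) (m := m) N η x1 x2 (D := D) (fun j hj => by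
      have := hmax j hj
      rw [hD]
      linarith)
    have hq : ∀ h' : ℝ, T μ s v h' η (0, x) n ≤ Mh μ s v h' w z n η := by
      intro h'
      have := le_Mh (μ := μ) (s := s) (v := v) (h := h') (w := w) (z := z) (n := n) η (q := ((0, x), n))
        ((mem_Bx N.v0 N.v1).2 (by
          simp only
          push_cast
          refine ⟨by omega, ?_, ?_⟩
          · linarith
          · linarith))
      exact this
    have g2 : Real.exp (T μ s v h0 η (0, x) n) ≤ Real.exp M :=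
      Real.exp_le_exp.2 ((hq h0).trans (by rw [hM]; exact le_max_left _ _))
    have g3 : Real.exp (T μ s v h1 η (0, x) n) ≤ Real.exp M :=
      Real.exp_le_exp.2 ((hq h1).trans (by rw [hM]; exact le_max_right _ _))
    have g4 : Real.exp (T μ s v h η (0, x) (n + m)) ≤ Real.exp (Real.log 2 + M + D) := by
      refine g1.trans ?_
      rw [Real.exp_add, Real.exp_add, Real.exp_log (by norm_num)]
      exact mul_le_mul_of_nonneg_right (by linarith) (Real.exp_pos _).le
    exact Real.exp_le_exp.1 g4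
  have g3 : Real.exp (θ * D) ≤ ∑ j ∈ Finset.Icc (-((n : ℤ) + 2)) ((n : ℤ) + 2), Real.exp (-(θ * far κ j)) *
        Real.exp (θ * CM μ s v h w (z + j * w + v * n) m (sh ((n : ℤ), 0) η)) := by
    have g4 := Finset.single_le_sum (f := fun j : ℤ => Real.exp (-(θ * far κ j)) *
        Real.exp (θ * CM μ s v h w (z + j * w + v * n) m (sh ((n : ℤ), 0) η))) (fun j _ => by positivity) hjs
    refine le_trans (le_of_eq ?_) g4
    rw [← Real.exp_add, hD]
    congr 1
    ring
  have g4 : Real.exp (θ * M) ≤ Real.exp (θ * Mh μ s v h0 w z n η) + Real.exp (θ * Mh μ s v h1 w z n η) := by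
    have p0 := Real.exp_pos (θ * Mh μ s v h0 w z n η)
    have p1 := Real.exp_pos (θ * Mh μ s v h1 w z n η)
    rcases max_choice (Mh μ s v h0 w z n η) (Mh μ s v h1 w z n η) with e | e
    · rw [hM, e]
      linarith
    · rw [hM, e]
      linarith
  calc Real.exp (θ * CM μ s v h w z (n + m) η) ≤ Real.exp (θ * Real.log 2) * Real.exp (θ * M) * Real.exp (θ * D) := by
        rw [← Real.exp_add, ← Real.exp_add]
        refine Real.exp_le_exp.2 ?_
        have := mul_le_mul_of_nonneg_left hC hθ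
        linarith
    _ ≤ _ := by
        refine mul_le_mul ?_ g3 (Real.exp_pos _).le (by positivity)
        exact mul_le_mul_of_nonneg_left g4 (Real.exp_pos _).le

end

end Pool.Agent.W_7d29a1_L78
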