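import Pool.Agent.W_7d29a1_L78.ConeA
import Pool.Agent.W_7d29a1_L.LsA4

/-!
ONE CONE (proofs row 620, consequences): from the exponential moments of `L*` at two tilts `h0 < h1` to an upper bound of
`n kap h` for the tilts `h` between them. (helper78)
-/

namespace Pool.Agent.W_7d29a1_L78

open MeasureTheory ProbabilityTheory Filter Topology Pool.Agent.W_7d29a1_F Pool.Agent.W_7d29a1_L

variable {μ : Measure ℝ} {s v w h0 h h1 κ z : ℝ} {n m : ℕ} [IsProbabilityMeasure μ]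

theorem integral_exp_CM_sh (θ : ℝ) (a : Pt) :
    ∫ η, Real.exp (θ * CM μ s v h w z m (sh a η)) ∂(law μ) = ∫ η, Real.exp (θ * CM μ s v h w z m η) ∂(law μ) := by
  have hm := (mp_sh (μ := μ) a).map_eq
  have hf : Measurable fun η : Env => Real.exp (θ * CM μ s v h w z m η) :=
    Real.measurable_exp.comp (Sub_CM.const_mul θ).1
  conv_rhs => rw [← hm]
  rw [integral_map (mp_sh (μ := μ) a).measurable.aemeasurable hf.aestronglyMeasurable]

/-- The slab inequality in the mean. -/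
theorem slab_mean (em : Pool.Agent.W_7d29a1_h47.EM μ) (N : Nm v w h0 h h1 κ) {θ D B : ℝ} (hθ : 0 ≤ θ)
    (H0 : ∀ z : ℝ, ∫ η, Real.exp (θ * Mh μ s v h0 w z n η) ∂(law μ) ≤ D)
    (H1 : ∀ z : ℝ, ∫ η, Real.exp (θ * Mh μ s v h1 w z n η) ∂(law μ) ≤ D)
    (HB : ∀ z : ℝ, ∫ η, Real.exp (θ * CM μ s v h w z m η) ∂(law μ) ≤ B) (z : ℝ) :
    ∫ η, Real.exp (θ * CM μ s v h w z (n + m) η) ∂(law μ) ≤
      (Real.exp (θ * Real.log 2) * (2 * D)) *
        ((∑ j ∈ Finset.Icc (-((n : ℤ) + 2)) ((n : ℤ) + 2), Real.exp (-(θ * Pool.Agent.W_7d29a1_L.far κ j))) * B) := by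
  obtain ⟨J, hJ⟩ : ∃ J : Finset ℤ, J = Finset.Icc (-((n : ℤ) + 2)) ((n : ℤ) + 2) := ⟨_, rfl⟩
  obtain ⟨A, hA⟩ : ∃ A : Env → ℝ, A = fun η => Real.exp (θ * Real.log 2) *
    (Real.exp (θ * Mh μ s v h0 w z n η) + Real.exp (θ * Mh μ s v h1 w z n η)) := ⟨_, rfl⟩
  obtain ⟨Bq, hBq⟩ : ∃ Bq : Env → ℝ, Bq = fun η => ∑ j ∈ J, Real.exp (-(θ * Pool.Agent.W_7d29a1_L.far κ j)) *
    Real.exp (θ * CM μ s v h w (z + j * w + v * n) m (sh ((n : ℤ), 0) η)) := ⟨_, rfl⟩
  have hSM : ∀ h' : ℝ, Sub fun η => θ * Mh μ s v h' w z n η := fun h' => Sub_Mh.const_mul θ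
  have hSC : ∀ j : ℤ, Sub fun η => θ * CM μ s v h w (z + j * w + v * n) m (sh ((n : ℤ), 0) η) := fun j =>
    (Sub_CM.comp_sh _).const_mul θ
  have hAm : Measurable A := by
    rw [hA]
    exact ((Real.measurable_exp.comp (hSM h0).1).add (Real.measurable_exp.comp (hSM h1).1)).const_mul _
  have hBm : Measurable Bq := by
    rw [hBq]
    exact Finset.measurable_fun_sum _ fun j _ => (Real.measurable_exp.comp (hSC j).1).const_mul _
  have hABi : Integrable (fun η => A η * Bq η) (law μ) := by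
    have h3 : Integrable (fun η => ∑ j ∈ J, (Real.exp (θ * Real.log 2) * Real.exp (-(θ * Pool.Agent.W_7d29a1_L.far κ j))) *
        (Real.exp (θ * Mh μ s v h0 w z n η + θ * CM μ s v h w (z + j * w + v * n) m (sh ((n : ℤ), 0) η)) +
          Real.exp (θ * Mh μ s v h1 w z n η + θ * CM μ s v h w (z + j * w + v * n) m (sh ((n : ℤ), 0) η)))) (law μ) :=
      integrable_finsetSum _ fun j _ =>
        ((((hSM h0).add (hSC j)).exp_int em).add (((hSM h1).add (hSC j)).exp_int em)).const_mul _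
    refine h3.congr (Filter.Eventually.of_forall fun η => ?_)
    rw [hA, hBq]
    beta_reduce
    rw [Finset.mul_sum]
    refine Finset.sum_congr rfl fun j _ => ?_
    rw [Real.exp_add, Real.exp_add]
    ring
  have hAd : DependsOn A (rows 0 (n : ℤ)) := by
    intro η η' hη
    rw [hA]
    beta_reduce
    have e0 : Mh μ s v h0 w z n η = Mh μ s v h0 w z n η' :=
      Mh_dep (μ := μ) (s := s) (h := h0) (w := w) (z := z) (n := n) N.v0 N.v1 hη
    have e1 : Mh μ s v h1 w z n η = Mh μ s v h1 w z n η' :=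
      Mh_dep (μ := μ) (s := s) (h := h1) (w := w) (z := z) (n := n) N.v0 N.v1 hη
    rw [e0, e1]
  have hBd : DependsOn Bq (rows (n : ℤ) ((n : ℤ) + m)) := by
    intro η η' hη
    rw [hBq]
    beta_reduce
    refine Finset.sum_congr rfl fun j _ => ?_
    have e1 : CM μ s v h w (z + j * w + v * n) m (sh ((n : ℤ), 0) η) =
        CM μ s v h w (z + j * w + v * n) m (sh ((n : ℤ), 0) η') := by
      refine CM_dep (μ := μ) (s := s) (v := v) (h := h) (w := w) (z := z + j * w + v * n) (m := m) fun x hx => ?_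
      show η (x + ((n : ℤ), 0)) = η' (x + ((n : ℤ), 0))
      refine hη _ ⟨?_, ?_⟩
      · have := hx.1
        show (n : ℤ) < x.1 + n
        omega
      · have := hx.2
        show x.1 + n ≤ (n : ℤ) + m
        omega
    rw [e1]
  have hAI : ∫ η, A η ∂(law μ) ≤ Real.exp (θ * Real.log 2) * (2 * D) := by
    rw [hA]
    rw [integral_const_mul, integral_add ((hSM h0).exp_int em) ((hSM h1).exp_int em)]
    refine mul_le_mul_of_nonneg_left ?_ (Real.exp_pos _).le
    have a1 := H0 z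
    have a2 := H1 z
    linarith
  have hBI : ∫ η, Bq η ∂(law μ) ≤ (∑ j ∈ J, Real.exp (-(θ * Pool.Agent.W_7d29a1_L.far κ j))) * B := by
    rw [hBq, integral_finsetSum _ fun j _ => ((hSC j).exp_int em).const_mul _, Finset.sum_mul]
    refine Finset.sum_le_sum fun j _ => ?_
    rw [integral_const_mul, integral_exp_CM_sh]
    exact mul_le_mul_of_nonneg_left (HB _) (Real.exp_pos _).le
  have hA0 : 0 ≤ ∫ η, A η ∂(law μ) := integral_nonneg fun η => by rw [hA]; positivity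
  have hB0 : 0 ≤ ∫ η, Bq η ∂(law μ) := integral_nonneg fun η => by
    rw [hBq]
    exact Finset.sum_nonneg fun j _ => by positivity
  have hprod : ∫ η, A η * Bq η ∂(law μ) = (∫ η, A η ∂(law μ)) * ∫ η, Bq η ∂(law μ) :=
    integral_indep hAm hBm hAd hBd (rows_disj le_rfl)
  have hpt : ∀ η, Real.exp (θ * CM μ s v h w z (n + m) η) ≤ A η * Bq η := by
    intro η
    rw [hA, hBq, hJ]
    exact exp_CM_le N hθ η
  calc ∫ η, Real.exp (θ * CM μ s v h w z (n + m) η) ∂(law μ) ≤ ∫ η, A η * Bq η ∂(law μ) :=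
        integral_mono ((Sub_CM.const_mul θ).exp_int em) hABi hpt
    _ = (∫ η, A η ∂(law μ)) * ∫ η, Bq η ∂(law μ) := hprod
    _ ≤ _ := by
        rw [← hJ]
        exact mul_le_mul hAI hBI hB0 (hA0.trans hAI)

/-- All slabs: `∫ exp (θ CM) ≤ G ^ N` for the time `N n`. -/
theorem slabs_mean (em : Pool.Agent.W_7d29a1_h47.EM μ) (N : Nm v w h0 h h1 κ) {θ D : ℝ} (hθ : 0 < θ) (hθ1 : θ ≤ 1)
    (hκ : 0 < κ)
    (H0 : ∀ z : ℝ, ∫ η, Real.exp (θ * Mh μ s v h0 w z n η) ∂(law μ) ≤ D)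
    (H1 : ∀ z : ℝ, ∫ η, Real.exp (θ * Mh μ s v h1 w z n η) ∂(law μ) ≤ D) (k : ℕ) (z : ℝ) :
    ∫ η, Real.exp (θ * CM μ s v h w z (k * n) η) ∂(law μ) ≤ (4 * D * (5 + 2 / (θ * κ))) ^ k := by
  have hD1 : 1 ≤ D := by
    have h1 : ∫ _η : Env, (1 : ℝ) ∂(law μ) ≤ ∫ η, Real.exp (θ * Mh μ s v h0 w 0 n η) ∂(law μ) :=
      integral_mono (integrable_const 1) ((Sub_Mh.const_mul θ).exp_int em) fun η =>
        Real.one_le_exp (mul_nonneg hθ.le (Mh_nonneg η))
    rw [integral_const, probReal_univ, one_smul] at h1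
    exact h1.trans (H0 0)
  have hx : 0 < θ * κ := mul_pos hθ hκ
  have hG0 : 0 ≤ 5 + 2 / (θ * κ) := by positivity
  induction k generalizing z with
  | zero =>
    rw [zero_mul, pow_zero]
    have e : (fun η => Real.exp (θ * CM μ s v h w z 0 η)) = fun _ => (1 : ℝ) := by
      funext η
      rw [CM_zero, mul_zero, Real.exp_zero]
    rw [e, integral_const, probReal_univ, one_smul]
  | succ k ih =>
    have e1 : (k + 1) * n = n + k * n := by ring
    rw [e1]
    refine (slab_mean em N hθ.le H0 H1 ih z).trans ?_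
    have s1 := sum_far hx (n + 2)
    have e2 : ∑ j ∈ Finset.Icc (-((n : ℤ) + 2)) ((n : ℤ) + 2), Real.exp (-(θ * Pool.Agent.W_7d29a1_L.far κ j)) =
        ∑ j ∈ Finset.Icc (-((n + 2 : ℕ) : ℤ)) ((n + 2 : ℕ) : ℤ), Real.exp (-(θ * κ * max (|(j : ℝ)| - 1) 0)) := by
      have e3 : ((n + 2 : ℕ) : ℤ) = (n : ℤ) + 2 := by push_cast; ring
      rw [e3]
      refine Finset.sum_congr rfl fun j _ => ?_
      unfold Pool.Agent.W_7d29a1_L.far
      congr 2
      ring
    rw [e2]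
    have s2 : Real.exp (θ * Real.log 2) ≤ 2 := by
      have hlog : 0 < Real.log 2 := Real.log_pos (by norm_num)
      calc Real.exp (θ * Real.log 2) ≤ Real.exp (Real.log 2) := Real.exp_le_exp.2 (by nlinarith)
        _ = 2 := Real.exp_log (by norm_num)
    have hB0 : 0 ≤ (4 * D * (5 + 2 / (θ * κ))) ^ k := by positivity
    have s3 : Real.exp (θ * Real.log 2) * (2 * D) ≤ 4 * D := by nlinarith
    calc Real.exp (θ * Real.log 2) * (2 * D) *
          ((∑ j ∈ Finset.Icc (-((n + 2 : ℕ) : ℤ)) ((n + 2 : ℕ) : ℤ), Real.exp (-(θ * κ * max (|(j : ℝ)| - 1) 0))) *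
            (4 * D * (5 + 2 / (θ * κ))) ^ k)
        ≤ 4 * D * ((5 + 2 / (θ * κ)) * (4 * D * (5 + 2 / (θ * κ))) ^ k) := by
          refine mul_le_mul s3 (mul_le_mul_of_nonneg_right s1 hB0) ?_ (by positivity)
          exact mul_nonneg (Finset.sum_nonneg fun j _ => (Real.exp_pos _).le) hB0
      _ = (4 * D * (5 + 2 / (θ * κ))) ^ (k + 1) := by ring

/-- ONE CONE: `n kap h ≤ log (4 D (5 + 2 / (θ κ))) / θ`. -/
theorem one_cone (em : Pool.Agent.W_7d29a1_h47.EM μ) (N : Nm v w h0 h h1 κ) (hn : 1 ≤ n) {θ D : ℝ} (hθ : 0 < θ)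
    (hθ1 : θ ≤ 1) (hκ : 0 < κ)
    (H0 : ∀ z : ℝ, ∫ η, Real.exp (θ * Mh μ s v h0 w z n η) ∂(law μ) ≤ D)
    (H1 : ∀ z : ℝ, ∫ η, Real.exp (θ * Mh μ s v h1 w z n η) ∂(law μ) ≤ D) :
    (n : ℝ) * kap μ s v h ≤ Real.log (4 * D * (5 + 2 / (θ * κ))) / θ := by
  have hD1 : 1 ≤ D := by
    have h1 : ∫ _η : Env, (1 : ℝ) ∂(law μ) ≤ ∫ η, Real.exp (θ * Mh μ s v h0 w 0 n η) ∂(law μ) :=
      integral_mono (integrable_const 1) ((Sub_Mh.const_mul θ).exp_int em) fun η =>
        Real.one_le_exp (mul_nonneg hθ.le (Mh_nonneg η))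
    rw [integral_const, probReal_univ, one_smul] at h1
    exact h1.trans (H0 0)
  have hx : 0 < θ * κ := mul_pos hθ hκ
  obtain ⟨G, hG⟩ : ∃ G : ℝ, G = 4 * D * (5 + 2 / (θ * κ)) := ⟨_, rfl⟩
  have hG0 : 0 < G := by rw [hG]; positivity
  rw [← hG]
  have hw0 : 0 < w := by linarith [N.w1]
  -- the mean of the tilted luck at the time `k n`
  have hk : ∀ k : ℕ, θ * (∫ η, V μ (s + h) η 0 (k * n) ∂(law μ) + ((k * n : ℕ) : ℝ) * kap μ s v h) ≤ k * Real.log G := by
    intro k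
    have a1 := slabs_mean (s := s) em N hθ hθ1 hκ H0 H1 k (-w)
    rw [← hG] at a1
    have a2 := Sub.exp_integral_le em ((Sub_CM (μ := μ) (s := s) (v := v) (h := h) (w := w) (z := -w) (m := k * n)).const_mul θ)
    rw [integral_const_mul] at a2
    have a3 : θ * ∫ η, CM μ s v h w (-w) (k * n) η ∂(law μ) ≤ k * Real.log G := by
      have := Real.log_le_log (Real.exp_pos _) (a2.trans a1)
      rwa [Real.log_exp, Real.log_pow] at this
    have a4 : ∫ η, T μ s v h η 0 (k * n) ∂(law μ) ≤ ∫ η, CM μ s v h w (-w) (k * n) η ∂(law μ) := by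
      refine integral_mono ((Sub_T _ _).integrable em) (Sub_CM.integrable em) fun η => ?_
      exact le_CM (μ := μ) (s := s) (v := v) (h := h) (w := w) (z := -w) (m := k * n) η (x := 0) (by push_cast; linarith)
        (by push_cast; linarith)
    have a5 : ∫ η, T μ s v h η 0 (k * n) ∂(law μ) =
        ∫ η, V μ (s + h) η 0 (k * n) ∂(law μ) + ((k * n : ℕ) : ℝ) * kap μ s v h := by
      unfold T
      rw [integral_add ((Sub_V _ _).integrable em) (integrable_const _), integral_const, probReal_univ, one_smul]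
    rw [← a5]
    exact (mul_le_mul_of_nonneg_left a4 hθ.le).trans a3
  -- the limit
  have hlim : Tendsto (fun k : ℕ => (∫ η, V μ (s + h) η 0 (k * n) ∂(law μ)) / (k : ℝ)) atTop (𝓝 0) := by
    have hn0 : (n : ℝ) ≠ 0 := by
      have : (1 : ℝ) ≤ n := by exact_mod_cast hn
      linarith
    have b1 := Pool.Agent.W_7d29a1_h47.tendsto_a em ((s + h) / 2)
    have b2 : Tendsto (fun k : ℕ => k * n) atTop atTop := by
      refine tendsto_atTop_mono (fun k => Nat.le_mul_of_pos_right k hn) tendsto_id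
    have b3 := b1.comp b2
    have b4 : Tendsto (fun k : ℕ => (n : ℝ) * (Pool.Agent.W_7d29a1_h47.a μ ((s + h) / 2) (k * n) / ((k * n : ℕ) : ℝ) -
        Pool.Agent.W_7d29a1_h47.Lam μ ((s + h) / 2))) atTop (𝓝 0) := by
      have b5 := (b3.sub_const (Pool.Agent.W_7d29a1_h47.Lam μ ((s + h) / 2))).const_mul (n : ℝ)
      rw [sub_self, mul_zero] at b5
      exact b5
    refine b4.congr' ?_
    filter_upwards [eventually_ge_atTop 1] with k hk1
    have hk0 : (k : ℝ) ≠ 0 := by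
      have : (1 : ℝ) ≤ k := by exact_mod_cast hk1
      linarith
    rw [integral_V_eq em]
    push_cast
    field_simp
  have hconst : Tendsto (fun _ : ℕ => Real.log G / θ - (n : ℝ) * kap μ s v h) atTop
      (𝓝 (Real.log G / θ - (n : ℝ) * kap μ s v h)) := tendsto_const_nhds
  have hle : ∀ᶠ k : ℕ in atTop, (∫ η, V μ (s + h) η 0 (k * n) ∂(law μ)) / (k : ℝ) ≤
      Real.log G / θ - (n : ℝ) * kap μ s v h := by
    filter_upwards [eventually_ge_atTop 1] with k hk1
    have hk0 : (0 : ℝ) < k := by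
      have : (1 : ℝ) ≤ k := by exact_mod_cast hk1
      linarith
    have c1 := hk k
    push_cast at c1
    have c2 : ∫ η, V μ (s + h) η 0 (k * n) ∂(law μ) + (k : ℝ) * n * kap μ s v h ≤ k * Real.log G / θ := by
      rw [le_div_iff₀ hθ]
      linarith
    rw [div_le_iff₀ hk0]
    have c3 : (Real.log G / θ - (n : ℝ) * kap μ s v h) * k = k * Real.log G / θ - (k : ℝ) * n * kap μ s v h := by ring
    rw [c3]
    linarith
  have hfin := le_of_tendsto_of_tendsto hlim hconst hle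
  linarith

end Pool.Agent.W_7d29a1_L78
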