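import Pool.Agent.W_7d29a1_L78.HitA

/-!
Line luck and box luck of the frame with the unit of direction `0` (proofs row 620, (0) and (1)). (helper78)
-/

namespace Pool.Agent.W_7d29a1_L78

open MeasureTheory ProbabilityTheory Filter Topology Pool.Agent.W_7d29a1_F Pool.Agent.W_7d29a1_h60
open Pool.Agent.W_7d29a1_L

variable {μ : Measure ℝ} {s : ℝ} [IsProbabilityMeasure μ]

/-- From tails to means. -/
theorem tail_compare {L G : Env → ℝ} {a : ℝ} (hL : Measurable L) (hG : Measurable G)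
    (G0 : ∀ η, 0 ≤ G η) (iL : Integrable L (law μ)) (iG : Integrable G (law μ))
    (h : ∀ Y : ℝ, a < Y → (law μ).real {η | Y ≤ L η} ≤ 4 * (law μ).real {η | Y - a ≤ G η}) :
    ∫ η, L η ∂(law μ) ≤ a + 4 * ∫ η, G η ∂(law μ) := by
  obtain ⟨K, hK⟩ : ∃ K : Env → ℝ, K = fun η => max (L η - a) 0 := ⟨_, rfl⟩
  have K0 : ∀ η, 0 ≤ K η := fun η => by rw [hK]; exact le_max_right _ _
  have hKm : Measurable K := by rw [hK]; exact (hL.sub_const a).max measurable_const
  have iK : Integrable K (law μ) := by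
    rw [hK]
    exact (iL.sub (integrable_const a)).sup (integrable_const 0)
  have hLK : ∀ η, L η ≤ a + K η := fun η => by
    rw [hK]
    have := le_max_left (L η - a) 0
    show L η ≤ a + max (L η - a) 0
    linarith
  have e1 : ∫⁻ η, ENNReal.ofReal (K η) ∂(law μ) ≤ 4 * ∫⁻ η, ENNReal.ofReal (G η) ∂(law μ) := by
    rw [lintegral_eq_lintegral_meas_le (law μ) (Filter.Eventually.of_forall K0) hKm.aemeasurable,
      lintegral_eq_lintegral_meas_le (law μ) (Filter.Eventually.of_forall G0) hG.aemeasurable,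
      ← lintegral_const_mul' _ _ (by norm_num)]
    refine setLIntegral_mono' measurableSet_Ioi fun t ht => ?_
    have ht0 : (0 : ℝ) < t := ht
    have h1 := h (t + a) (by linarith)
    have e2 : t + a - a = t := by ring
    rw [e2] at h1
    have e3 : {η | t ≤ K η} = {η | t + a ≤ L η} := by
      ext η
      rw [hK]
      show t ≤ max (L η - a) 0 ↔ t + a ≤ L η
      rw [le_max_iff]
      constructor
      · rintro (h2 | h2)
        · linarith
        · linarith
      · intro h2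
        left
        linarith
    rw [e3]
    have h2 := ENNReal.ofReal_le_ofReal h1
    rw [ENNReal.ofReal_mul (by norm_num), ofReal_measureReal, ofReal_measureReal] at h2
    convert h2 using 2
    norm_num
  have e2 : ∫ η, K η ∂(law μ) ≤ 4 * ∫ η, G η ∂(law μ) := by
    rw [← ofReal_integral_eq_lintegral_ofReal iK (Filter.Eventually.of_forall K0),
      ← ofReal_integral_eq_lintegral_ofReal iG (Filter.Eventually.of_forall G0)] at e1
    have h4 : (4 : ENNReal) = ENNReal.ofReal 4 := by norm_num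
    rw [h4, ← ENNReal.ofReal_mul (by norm_num)] at e1
    have hG0 : 0 ≤ ∫ η, G η ∂(law μ) := integral_nonneg G0
    exact (ENNReal.ofReal_le_ofReal_iff (by positivity)).1 e1
  calc ∫ η, L η ∂(law μ) ≤ ∫ η, (a + K η) ∂(law μ) := integral_mono iL ((integrable_const a).add iK) hLK
    _ = a + ∫ η, K η ∂(law μ) := by
        rw [integral_add (integrable_const a) iK, integral_const, probReal_univ, one_smul]
    _ ≤ a + 4 * ∫ η, G η ∂(law μ) := by linarith

/-- The unit of direction `0`: the positive parts of the mean costs near the vertical line. -/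
def hXE (μ : Measure ℝ) (s : ℝ) (n : ℕ) (E : ℝ) : Prop :=
  ∀ (m : ℕ) (y : ℤ), m ≤ 8 * n → 0 ≤ y → y ≤ m → |2 * y - m| ≤ 2 → ∫ η, max (X μ s η 0 m y) 0 ∂(law μ) ≤ E

theorem row_line (hEM : Pool.Agent.W_7d29a1_h47.EM μ) {n : ℕ} (hn : 1 ≤ n) {E : ℝ}
    (hX : ∀ (m : ℕ) (y : ℤ), m ≤ 4 * n → 0 ≤ y → y ≤ m → |2 * y - m| ≤ 2 → ∫ η, max (X μ s η 0 m y) 0 ∂(law μ) ≤ E) :
    ∫ η, Gr μ s n 0 η 0 ∂(law μ) ≤ 2 * E := by
  refine row_mean (μ := μ) (s := s) hEM n 0 (y0 := (n : ℤ) / 2) (y4 := 2 * (n : ℤ)) (by omega) (by push_cast; omega)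
    (by omega) (by push_cast; omega) (hX _ _ (by omega) (by omega) (by push_cast; omega) ?_) fun p hp0 hp1 => ?_
  · push_cast
    rw [abs_le]
    omega
  · refine hX _ _ (by omega) (by omega) (by push_cast at hp1; omega) ?_
    push_cast at hp1
    rw [abs_le]
    omega

/-- LINE LUCK: the largest luck of the starts on the vertical line `t / 2 + c` has mean at most `12 E`; the unit is needed up
to the time `4 n` only. -/
theorem line_luck4 (hEM : Pool.Agent.W_7d29a1_h47.EM μ) {n : ℕ} (hn : 1 ≤ n) {E : ℝ} (hE : 0 < E)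
    (hX : ∀ (m : ℕ) (y : ℤ), m ≤ 4 * n → 0 ≤ y → y ≤ m → |2 * y - m| ≤ 2 → ∫ η, max (X μ s η 0 m y) 0 ∂(law μ) ≤ E)
    (c : ℤ) {L : Env → ℝ} (hL : Measurable L) (iL : Integrable L (law μ))
    (hLV : ∀ η, 0 < L η → ∃ t m : ℕ, t + m ≤ n ∧ L η ≤ V μ s η ((t : ℤ), (t : ℤ) / 2 + c) m) :
    ∫ η, L η ∂(law μ) ≤ 12 * E := by
  classical
  have hbox : ∀ Y : ℝ, 4 * E < Y → (law μ).real {η | Y ≤ L η} ≤ 4 * (law μ).real {η | Y - 4 * E ≤ Gr μ s n 0 η 0} := by
    intro Y hY
    obtain ⟨S, hS⟩ : ∃ S : Finset (ℕ × ℤ), S = (Finset.range (n + 1)).image fun t : ℕ => (t, (t : ℤ) / 2 + c) := ⟨_, rfl⟩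
    have key := box_row (μ := μ) (s := s) hEM n 0 S (y := fun m => (m : ℤ) / 2) (fun m _ _ => by constructor <;> omega)
      hE (fun m h1 h2 => hX m _ (by omega) (by omega) (by omega) (by rw [abs_le]; omega))
      (p0 := c - ((n : ℤ) + 1) / 2) ?_ Y
    · have hm1 : MeasurableSet {η : Env | Y ≤ L η} := measurableSet_le measurable_const hL
      have hm2 : MeasurableSet {η : Env | Y - 4 * E ≤ Gr μ s n 0 η 0} :=
        measurableSet_le measurable_const (Sub_Gr n 0 0).1
      have hm3 : MeasurableSet {η : Env | ∃ q ∈ S, ∃ j, q.1 + j ≤ n ∧ Y ≤ V μ s η ((q.1 : ℤ), q.2) j} := by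
        have e : {η : Env | ∃ q ∈ S, ∃ j, q.1 + j ≤ n ∧ Y ≤ V μ s η ((q.1 : ℤ), q.2) j} =
            ⋃ q ∈ S, ⋃ j ∈ Finset.range (n + 1), {η : Env | q.1 + j ≤ n ∧ Y ≤ V μ s η ((q.1 : ℤ), q.2) j} := by
          ext η
          simp only [Set.mem_ofPred_eq, Set.mem_iUnion, exists_prop]
          constructor
          · rintro ⟨q, hq, j, h1, h2⟩
            exact ⟨q, hq, j, Finset.mem_range.2 (by omega), h1, h2⟩
          · rintro ⟨q, hq, j, _, h1, h2⟩
            exact ⟨q, hq, j, h1, h2⟩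
        rw [e]
        refine Finset.measurableSet_biUnion _ fun q _ => Finset.measurableSet_biUnion _ fun j _ => ?_
        exact (MeasurableSet.const _).inter (measurableSet_le measurable_const (Sub_V _ _).1)
      rw [← integral_io_real hm2]
      refine le_trans ?_ key
      rw [← integral_io_real hm1]
      refine integral_mono ((Sub_io hm1).integrable hEM) ((Sub_io hm3).integrable hEM) fun η => ?_
      show io (Y ≤ L η) ≤ io _
      by_cases hp : Y ≤ L η
      · obtain ⟨t, m, h1, h2⟩ := hLV η (by linarith)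
        rw [io_of (⟨(t, (t : ℤ) / 2 + c), by rw [hS]; exact Finset.mem_image_of_mem _ (Finset.mem_range.2 (by omega)), m,
          h1, hp.trans h2⟩ : ∃ q ∈ S, ∃ j, q.1 + j ≤ n ∧ Y ≤ V μ s η ((q.1 : ℤ), q.2) j)]
        exact io_le_one _
      · rw [io_not hp]
        exact io_nonneg _
    · intro q hq
      rw [hS] at hq
      obtain ⟨t, ht, rfl⟩ := Finset.mem_image.1 hq
      have ht' := Finset.mem_range.1 ht
      show t ≤ n ∧ c - ((n : ℤ) + 1) / 2 ≤ (t : ℤ) / 2 + c - ((t + n : ℕ) : ℤ) / 2 ∧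
        (t : ℤ) / 2 + c - ((t + n : ℕ) : ℤ) / 2 ≤ c - ((n : ℤ) + 1) / 2 + ((0 : ℕ) : ℤ) + 1
      push_cast
      omega
  have h1 := tail_compare (μ := μ) hL (Sub_Gr n 0 0).1 (fun η => Gr_nonneg _ _ _ _) iL
    ((Sub_Gr n 0 0).integrable hEM) hbox
  have h2 := row_line (μ := μ) (s := s) hEM hn hX
  linarith

/-- LINE LUCK: the largest luck of the starts on the vertical line `t / 2 + c` has mean at most `12 E`. -/
theorem line_luck (hEM : Pool.Agent.W_7d29a1_h47.EM μ) {n : ℕ} (hn : 1 ≤ n) {E : ℝ} (hE : 0 < E)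
    (hX : hXE μ s n E) (c : ℤ) {L : Env → ℝ} (hL : Measurable L) (iL : Integrable L (law μ))
    (hLV : ∀ η, 0 < L η → ∃ t m : ℕ, t + m ≤ n ∧ L η ≤ V μ s η ((t : ℤ), (t : ℤ) / 2 + c) m) :
    ∫ η, L η ∂(law μ) ≤ 12 * E :=
  line_luck4 hEM hn hE (fun m y hm => hX m y (by omega)) c hL iL hLV

end Pool.Agent.W_7d29a1_L78
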